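import Pool.Agent.H678.Inv.A

/-!
# Groups in which the product of two involutions has order dividing four: three generators
-/

set_option autoImplicit false

namespace Pool.Agent.H381.P4

open Pool.Agent.H678.Inv

universe u

variable {G : Type u} [Group G]

theorem sq_mul {x y : G} (hx : x * x = 1) (hy : y * y = 1) (h : Commute x y) :
    x * y * (x * y) = 1 := by
  rw [mul_assoc, ← mul_assoc y x y, ← h.eq, mul_assoc x y y, hy, mul_one, hx]

theorem cj_inv_iff {x y g : G} (h : Commute (cj x g) y) : Commute x (cj y g⁻¹) := by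
  have := comm_cj h g⁻¹
  rwa [cj_cj, mul_inv_cancel, cj_one] at this

section

variable (H : E2 G)
include H

theorem F1 {x t : G} (hx : x * x = 1) (ht : t * t = 1) : Commute x (cj x t) := by
  have h1 : k x t = x * cj x t := k_eq ht
  have h2 : Commute (k x t) x := kl hx ht (H _ _ hx ht)
  have h3 : cj x t = x * k x t := by rw [h1, cc hx]
  rw [h3]
  exact (Commute.refl x).mul_right h2.symm

theorem sw {x y : G} (hx : x * x = 1) (hy : y * y = 1) : k x y = k y x := k_swap hx hy (H _ _ hx hy)

/-- three involutions -/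
theorem Z {d a c : G} (hd : d * d = 1) (ha : a * a = 1) (hc : c * c = 1) :
    Commute (k (cj d a) (cj d c)) a ∧ Commute (k (cj d a) (cj d c)) c ∧
    Commute (k (cj d a) (cj d c)) d ∧ k d (cj d (a * c)) = k (cj d a) (cj d c) ∧
    k d (cj d (c * a)) = k (cj d a) (cj d c) := by
  have key : ∀ a c : G, a * a = 1 → c * c = 1 → Commute (k d (cj d (a * c))) c := by
    intro a c ha hc
    have hx := cj_sq hd a
    have e1 : k (cj d a) c = cj d a * cj (cj d a) c := k_eq hc
    have e2 : k (k (cj d a) c) d = k (cj (cj d a) c) d := by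
      have h1 : Commute (cj d a) d := (F1 H hd ha).symm
      have h2 : Commute (cj d a) (cj (cj d a) c) := F1 H hx hc
      have h3 : k d (cj d a * cj (cj d a) c) = k d (cj (cj d a) c) := k_cut hx h1.symm h2
      have h4 : cj d a * cj (cj d a) c * (cj d a * cj (cj d a) c) = 1 :=
        sq_mul hx (cj_sq hx c) h2
      rw [e1, sw H h4 hd, h3, sw H hd (cj_sq hx c)]
    have e3 : k d (cj d (a * c)) = k (k (cj d a) c) d := by
      rw [e2, sw H (cj_sq hx c) hd, cj_cj]
    rw [e3]
    exact P3 H hx hd hc (F1 H hd ha).symm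
  set u := k d (cj d (a * c)) with hu
  set v := k d (cj d (c * a)) with hv
  have huc : Commute u c := key a c ha hc
  have hva : Commute v a := key c a hc ha
  have iu : u * u = 1 := H _ _ hd (cj_sq hd _)
  have hud : Commute u d := kl hd (cj_sq hd _) iu
  have e0 : cj u (c * a) = v := by
    rw [hu, cj_k, cj_cj, show a * c * (c * a) = 1 by
      rw [mul_assoc, cc hc, ha], cj_one, hv]
    exact sw H (cj_sq hd _) hd
  have e1 : cj u a = v := by
    rw [← cj_cj, cj_of_comm huc] at e0
    exact e0
  have e2 : u = v := by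
    have h1 : cj v a = v := cj_of_comm hva
    rw [← e1, cj_cj, ha, cj_one] at h1
    rw [← e1]
    exact h1
  have hua : Commute u a := by rw [e2]; exact hva
  have e3 : k (cj d a) (cj d c) = u := by
    have h1 : cj (k (cj d a) (cj d c)) a = v := by
      rw [cj_k, cj_cj, ha, cj_one, cj_cj, hv]
    have h2 : k (cj d a) (cj d c) = cj v a := by
      rw [← h1, cj_cj, ha, cj_one]
    rw [h2, cj_of_comm hva, e2]
  rw [e3]
  exact ⟨hua, huc, hud, rfl, e2.symm⟩

/-- the elements `β` -/
theorem B1 {c d f : G} (hc : c * c = 1) (hd : d * d = 1) (hf : f * f = 1) (h : Commute c d) :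
    k c (cj d f) = k d (cj c f) ∧ Commute (k c (cj d f)) f ∧ Commute (k c (cj d f)) c ∧
    Commute (k c (cj d f)) d ∧ k c (cj d f) = k (k c f) d := by
  have key : ∀ c d : G, c * c = 1 → d * d = 1 → Commute c d → k c (cj d f) = k (k d f) c := by
    intro c d hc hd h
    have e1 : cj d f = d * k d f := by rw [k_eq hf, cc hd]
    have i1 := H _ _ hd hf
    rw [e1, k_cut hd h (kl hd hf i1).symm]
    exact sw H hc i1
  have e1 := key c d hc hd h
  have e2 := key d c hd hc h.symm
  have e3 : k (k d f) c = k (k c f) d := P1 H hd hc hf h.symm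
  have e4 : k c (cj d f) = k d (cj c f) := by rw [e1, e2, e3]
  refine ⟨e4, ?_, kl hc (cj_sq hd f) (H _ _ hc (cj_sq hd f)), ?_, by rw [e1, e3]⟩
  · rw [e1]
    exact P3 H hd hc hf h.symm
  · rw [e4]
    exact kl hd (cj_sq hc f) (H _ _ hd (cj_sq hc f))

/-- the elements `δ` -/
theorem D1 {c d e f : G} (hc : c * c = 1) (hd : d * d = 1) (he : e * e = 1) (hf : f * f = 1)
    (h : Commute c d) (h' : Commute e f) :
    Commute (k (cj c e) (k c (cj d f))) c ∧ Commute (k (cj c e) (k c (cj d f))) d ∧
    Commute (k (cj c e) (k c (cj d f))) e ∧ Commute (k (cj c e) (k c (cj d f))) f := by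
  -- the first form
  have key : ∀ e f : G, e * e = 1 → f * f = 1 → Commute e f →
      k (k c e) (k c (cj d f)) = k (k (k c f) d) (k c e) ∧
      Commute (k (k c e) (k c (cj d f))) e ∧ Commute (k (k c e) (k c (cj d f))) c := by
    intro e f he hf h'
    obtain ⟨b1, b2, b3, b4, b5⟩ := B1 H hc hd hf h
    have ib : k c (cj d f) * k c (cj d f) = 1 := H _ _ hc (cj_sq hd f)
    have ic := H _ _ hc he
    refine ⟨?_, P3 H hc ib he b3.symm, ?_⟩
    · rw [sw H ic ib, b5]
    · exact (co_k (kl hc he ic).symm b3.symm).symm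
  obtain ⟨k1, k2, k3⟩ := key e f he hf h'
  obtain ⟨l1, l2, l3⟩ := key f e hf he h'.symm
  have ice := H _ _ hc he
  have icf := H _ _ hc hf
  have cef : Commute (k c e) (k c f) := by
    rw [sw H hc he, sw H hc hf]
    exact P2 H he hf hc h'
  have e1 : k (k c e) (k c (cj d f)) = k (k c f) (k c (cj d e)) := by
    rw [k1, l1]
    exact P1 H icf ice hd cef.symm
  have e2 : Commute (k (k c e) (k c (cj d f))) d := by
    rw [k1]
    exact P3 H icf ice hd cef.symm
  have e3 : k (k c e) (k c (cj d f)) = k (cj c e) (k c (cj d f)) := by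
    obtain ⟨b1, b2, b3, b4, b5⟩ := B1 H hc hd hf h
    have ib : k c (cj d f) * k c (cj d f) = 1 := H _ _ hc (cj_sq hd f)
    have hcc : Commute c (cj c e) := F1 H hc he
    have h4 : c * cj c e * (c * cj c e) = 1 := sq_mul hc (cj_sq hc e) hcc
    rw [k_eq he, sw H h4 ib, k_cut hc b3 hcc, sw H ib (cj_sq hc e)]
  rw [← e3]
  refine ⟨k3, e2, k2, ?_⟩
  rw [e1]
  exact l2

end

end Pool.Agent.H381.P4
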