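import Pool.Agent.H678.Inv.Y
import Pool.Agent.H381.P4.A

/-!
# Elements commuting with their conjugates modulo the locally finite `2`-radical
-/

set_option autoImplicit false

namespace Pool.Agent.H381.P4

open Pool.Agent.H678.Inv
open Pool.Agent.W5h59.Bu (LFn LF2 rad rad_lf rad_quot le_rad lf_of_comm)

universe u

variable {G : Type u} [Group G]

/-- the elements commute modulo the radical -/
def CM (x y : G) : Prop :=
  Commute (QuotientGroup.mk' (rad G) x) (QuotientGroup.mk' (rad G) y)

theorem CM.of {x y : G} (h : Commute x y) : CM x y := h.map (QuotientGroup.mk' (rad G))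

theorem CM.symm {x y : G} (h : CM x y) : CM y x := Commute.symm h

theorem pi_one {x : G} (hx : x ∈ rad G) : QuotientGroup.mk' (rad G) x = 1 := by
  rw [QuotientGroup.mk'_apply, QuotientGroup.eq_one_iff]
  exact hx

theorem of_pi_one {x : G} (hx : QuotientGroup.mk' (rad G) x = 1) : x ∈ rad G := by
  rwa [QuotientGroup.mk'_apply, QuotientGroup.eq_one_iff] at hx

theorem CM.rad_left {x y : G} (hx : x ∈ rad G) : CM x y := by
  unfold CM
  rw [pi_one hx]
  exact Commute.one_left _

theorem CM.rad_right {x y : G} (hy : y ∈ rad G) : CM x y := (CM.rad_left hy).symm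

theorem CM.of_k {x y : G} (hx : x * x = 1) (hy : y * y = 1) (h : k x y ∈ rad G) : CM x y := by
  apply co_one
  · rw [← map_mul, hx, map_one]
  · rw [← map_mul, hy, map_one]
  · rw [← map_k]
    exact pi_one h

theorem CM.k_mem {x y : G} (hx : x * x = 1) (hy : y * y = 1) (h : CM x y) : k x y ∈ rad G := by
  apply of_pi_one
  rw [map_k]
  apply k_one
  · rw [← map_mul, hx, map_one]
  · rw [← map_mul, hy, map_one]
  · exact h

theorem cj_rad {x : G} (hx : x ∈ rad G) (g : G) : cj x g ∈ rad G := by
  have h : (rad G).Normal := inferInstance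
  have := h.conj_mem x hx g⁻¹
  rwa [inv_inv] at this

theorem CM.conj {x y : G} (h : CM x y) (g : G) : CM (cj x g) (cj y g) := by
  unfold CM
  rw [map_cj, map_cj]
  exact comm_cj h _

/-- the centralizer of `T` modulo the radical -/
def Mc (T : Set G) : Subgroup G where
  carrier := {y | ∀ t ∈ T, CM y t}
  one_mem' := fun t _ => CM.of (Commute.one_left t)
  mul_mem' := by
    intro a b ha hb t ht
    have h1 := ha t ht
    have h2 := hb t ht
    unfold CM at *
    rw [map_mul]
    exact h1.mul_left h2
  inv_mem' := by
    intro a ha t ht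
    have h1 := ha t ht
    unfold CM at *
    rw [map_inv]
    exact h1.inv_left

/-- **Main lemma.**  Let `T` be a set containing the involution `x`, and let `S` be a set of
involutions generating the group, such that each element of `S` either normalizes `T` or commutes
with `T` modulo the radical.  If `x` lies in the normal closure of elements commuting with `T` modulo
the radical, then `x` lies in the radical. -/
theorem mainL {x y : G} (hx : x * x = 1) {T S : Set G} (hxT : x ∈ T)
    (hS : Subgroup.closure S = ⊤) (hS2 : ∀ s ∈ S, s * s = 1)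
    (h : ∀ s ∈ S, (∀ t ∈ T, cj t s ∈ T) ∨ (∀ t ∈ T, CM s t))
    (hy : ∀ t ∈ T, CM y t) (hxy : x ∈ Subgroup.normalClosure {y}) : x ∈ rad G := by
  have hN : (Mc T).Normal := by
    constructor
    intro n hn g
    have hg : g ∈ Subgroup.closure S := hS ▸ Subgroup.mem_top g
    have key : (∀ m ∈ Mc T, g * m * g⁻¹ ∈ Mc T) ∧ (∀ m ∈ Mc T, g⁻¹ * m * g ∈ Mc T) := by
      clear hn
      induction hg using Subgroup.closure_induction with
      | mem s hs =>
        have hinv : s⁻¹ = s := iinv (hS2 s hs)
        have h1 : ∀ m ∈ Mc T, s * m * s ∈ Mc T := by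
          intro m hm
          rcases h s hs with h | h
          · intro t ht
            have hm' : ∀ t ∈ T, CM m t := hm
            have h2 := (hm' _ (h t ht)).conj s
            rw [cj_cj, hS2 s hs, cj_one] at h2
            have e : cj m s = s * m * s := by unfold cj; rw [hinv]
            rw [e] at h2
            exact h2
          · have h3 : s ∈ Mc T := h
            exact mul_mem (mul_mem h3 hm) h3
        rw [hinv]
        exact ⟨h1, h1⟩
      | one => simp
      | mul a b _ _ ha hb =>
        refine ⟨?_, ?_⟩
        · intro m hm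
          have := ha.1 _ (hb.1 m hm)
          have e : a * b * m * (a * b)⁻¹ = a * (b * m * b⁻¹) * a⁻¹ := by group
          rw [e]
          exact this
        · intro m hm
          have := hb.2 _ (ha.2 m hm)
          have e : (a * b)⁻¹ * m * (a * b) = b⁻¹ * (a⁻¹ * m * a) * b := by group
          rw [e]
          exact this
      | inv a _ ha =>
        refine ⟨?_, ?_⟩
        · intro m hm
          rw [inv_inv]
          exact ha.2 m hm
        · intro m hm
          rw [inv_inv]
          exact ha.1 m hm
    exact key.1 n hn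
  have hyM : y ∈ Mc T := hy
  have hxM : x ∈ Mc T := by
    have : Subgroup.normalClosure {y} ≤ Mc T :=
      Subgroup.normalClosure_le_normal (by
        intro z hz
        rw [Set.mem_singleton_iff] at hz
        rw [hz]
        exact hyM)
    exact this hxy
  have hc : ∀ g : G, CM x (cj x g) := by
    intro g
    have h1 : cj x g ∈ Mc T := by
      have := hN.conj_mem x hxM g⁻¹
      rwa [inv_inv] at this
    exact (h1 x hxT).symm
  have hq : ∀ g : G, q x g ∈ rad G := fun g => (hc g).k_mem hx (cj_sq hx g)
  apply rad_step
  · rw [hx]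
    exact one_mem _
  · intro g _
    exact mul_mem (hq g) (hq g)
  · intro g _ g' _
    exact mul_mem (mul_mem (hq g) (hq g')) (mul_mem (hq g) (hq g'))

/-- elements central modulo the radical -/
theorem mainC {x : G} (hx : x * x = 1) {S : Set G} (hS : Subgroup.closure S = ⊤)
    (hS2 : ∀ s ∈ S, s * s = 1) (h : ∀ s ∈ S, CM s x) : x ∈ rad G := by
  refine mainL (y := x) (T := {x}) hx rfl hS hS2 ?_ ?_
    (Subgroup.subset_normalClosure rfl)
  · intro s hs
    right
    intro t ht
    rw [Set.mem_singleton_iff] at ht
    rw [ht]
    exact h s hs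
  · intro t ht
    rw [Set.mem_singleton_iff] at ht
    rw [ht]
    exact CM.of (Commute.refl x)

theorem lf2_of_rad_top {S : Set G} (hS : Subgroup.closure S = ⊤) (h : ∀ s ∈ S, s ∈ rad G) :
    LF2 G := by
  have h1 : rad G = ⊤ := by
    rw [eq_top_iff, ← hS, Subgroup.closure_le]
    exact h
  have h2 := rad_lf G
  rw [h1] at h2
  exact h2.image (Subgroup.topEquiv : (⊤ : Subgroup G) ≃* G).toMonoidHom
    (Subgroup.topEquiv : (⊤ : Subgroup G) ≃* G).surjective

end Pool.Agent.H381.P4
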