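import Pool.Agent.H381.P4.B

/-!
# The two commutation patterns
-/

set_option autoImplicit false

namespace Pool.Agent.H381.P4

open Pool.Agent.H678.Inv
open Pool.Agent.W5h59.Bu (LFn LF2 rad rad_lf rad_quot le_rad lf_of_comm)

universe u

variable {G : Type u} [Group G]

theorem cj_mem_nc (d g : G) : cj d g ∈ Subgroup.normalClosure {d} := by
  have h := Subgroup.normalClosure_normal (s := ({d} : Set G))
  have := h.conj_mem d (Subgroup.subset_normalClosure rfl) g⁻¹
  rwa [inv_inv] at this

theorem k_mem_nc {d x y : G} (hx : x ∈ Subgroup.normalClosure {d})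
    (hy : y ∈ Subgroup.normalClosure {d}) : k x y ∈ Subgroup.normalClosure {d} :=
  mul_mem (mul_mem hx hy) (mul_mem hx hy)

theorem FF (H : E2 G) {d g h : G} (hd : d * d = 1) (i : h * g⁻¹ * (h * g⁻¹) = 1) :
    Commute (cj d g) (cj d h) := by
  have h1 := comm_cj (F1 H hd i) g
  rwa [cj_cj, inv_mul_cancel_right] at h1

section path

variable (H : E2 G) {B : Set G} {a c d : G} (hB : ∀ b ∈ B, b * b = 1)
  (hBB : ∀ b ∈ B, ∀ b' ∈ B, Commute b b') (ha : a * a = 1) (hc : c * c = 1) (hd : d * d = 1)
  (hBa : ∀ b ∈ B, Commute b a) (hBc : ∀ b ∈ B, Commute b c)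

theorem clo_comm {x : G} (h : ∀ b ∈ B, Commute b x) : ∀ β ∈ Subgroup.closure B, Commute β x := by
  intro β hβ
  induction hβ using Subgroup.closure_induction with
  | mem b hb => exact h b hb
  | one => exact Commute.one_left x
  | mul y z _ _ h1 h2 => exact h1.mul_left h2
  | inv y _ h1 => exact h1.inv_left

include hBB in
theorem clo_comm2 : ∀ β ∈ Subgroup.closure B, ∀ β' ∈ Subgroup.closure B, Commute β β' := by
  intro β hβ β' hβ'
  refine clo_comm ?_ β hβ
  intro b hb
  exact (clo_comm (fun b' hb' => hBB b' hb' b hb) β' hβ').symm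

include hB hBB in
theorem clo_sq : ∀ β ∈ Subgroup.closure B, β * β = 1 := by
  intro β hβ
  induction hβ using Subgroup.closure_induction with
  | mem b hb => exact hB b hb
  | one => exact one_mul 1
  | mul y z hy hz h1 h2 => exact sq_mul h1 h2 (clo_comm2 hBB y hy z hz)
  | inv y _ h1 => rw [← mul_inv_rev, h1, inv_one]

include H hB hBB ha hc hd hBa hBc

theorem path_y (hgen : Subgroup.closure (B ∪ {a, c, d}) = ⊤) {β : G}
    (hβ : β ∈ Subgroup.closure B) : k d (cj d (a * (c * β))) ∈ rad G ∧
      k d (cj d (c * β * a)) ∈ rad G := by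
  have sB := clo_sq hB hBB
  have cB := clo_comm2 hBB
  have cBa := clo_comm hBa
  have cBc := clo_comm hBc
  have icβ : c * β * (c * β) = 1 := sq_mul hc (sB β hβ) (cBc β hβ).symm
  have iaβ : a * β * (a * β) = 1 := sq_mul ha (sB β hβ) (cBa β hβ).symm
  obtain ⟨z1, z2, z3, z4, z5⟩ := Z H hd ha icβ
  obtain ⟨w1, w2, w3, w4, w5⟩ := Z H hd iaβ hc
  have e1 : a * β * c = a * (c * β) := by rw [mul_assoc, (cBc β hβ).eq]
  set y := k (cj d a) (cj d (c * β)) with hy
  have e2 : k (cj d (a * β)) (cj d c) = y := by rw [← w4, e1, z4]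
  have yc : Commute y c := by rw [← e2]; exact w2
  have ya : Commute y a := z1
  have iy : y * y = 1 := H _ _ (cj_sq hd _) (cj_sq hd _)
  have hyr : y ∈ rad G := by
    refine mainL (y := d) (T := {t | ∃ β' ∈ Subgroup.closure B, t = cj y β'}) iy
      ⟨1, one_mem _, (cj_one y).symm⟩ hgen ?_ ?_ ?_ ?_
    · rintro s (hs | hs | hs | hs)
      · exact hB s hs
      · rw [hs]; exact ha
      · rw [hs]; exact hc
      · rw [Set.mem_singleton_iff] at hs
        rw [hs]; exact hd
    · rintro s (hs | hs | hs | hs)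
      · left
        rintro _ ⟨β', hβ', rfl⟩
        exact ⟨β' * s, mul_mem hβ' (Subgroup.subset_closure hs), cj_cj _ _ _⟩
      · right
        rintro _ ⟨β', hβ', rfl⟩
        rw [hs]
        have := comm_cj ya β'
        rw [cj_of_comm (cBa β' hβ').symm] at this
        exact CM.of this.symm
      · right
        rintro _ ⟨β', hβ', rfl⟩
        rw [hs]
        have := comm_cj yc β'
        rw [cj_of_comm (cBc β' hβ').symm] at this
        exact CM.of this.symm
      · right
        rintro _ ⟨β', hβ', rfl⟩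
        rw [Set.mem_singleton_iff] at hs
        rw [hs]
        have h1 : Commute y (cj d β') := by
          refine (co_k (FF H hd ?_) (FF H hd ?_)).symm
          · rw [iinv (sB β' hβ')]
            exact sq_mul ha (sB β' hβ') (cBa β' hβ').symm
          · rw [iinv (sB β' hβ')]
            exact sq_mul icβ (sB β' hβ') ((cBc β' hβ').symm.mul_left (cB β hβ β' hβ'))
        have h2 := comm_cj h1 β'
        rw [cj_cj, sB β' hβ', cj_one] at h2
        exact CM.of h2.symm
    · rintro _ ⟨β', hβ', rfl⟩
      have h1 : Commute y (cj d β') := by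
        refine (co_k (FF H hd ?_) (FF H hd ?_)).symm
        · rw [iinv (sB β' hβ')]
          exact sq_mul ha (sB β' hβ') (cBa β' hβ').symm
        · rw [iinv (sB β' hβ')]
          exact sq_mul icβ (sB β' hβ') ((cBc β' hβ').symm.mul_left (cB β hβ β' hβ'))
      have h2 := comm_cj h1 β'
      rw [cj_cj, sB β' hβ', cj_one] at h2
      exact CM.of h2.symm
    · exact k_mem_nc (cj_mem_nc _ _) (cj_mem_nc _ _)
  rw [z4, z5]
  exact ⟨hyr, hyr⟩

/-- classification of the elements of `⟨B, a, c⟩` -/
theorem path_class {h : G} (hh : h ∈ Subgroup.closure (B ∪ {a, c})) :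
    (∃ β ∈ Subgroup.closure B, h = a * (c * β) ∨ h = c * β * a) ∨ h * h = 1 := by
  have sB := clo_sq hB hBB
  have cB := clo_comm2 hBB
  have cBa := clo_comm hBa
  have cBc := clo_comm hBc
  have iac : a * c * (a * c) * (a * c * (a * c)) = 1 := H a c ha hc
  have sw1 : a * c * (a * c) = c * a * (c * a) := sw H ha hc
  have key : ∃ β ∈ Subgroup.closure B, h = β ∨ h = a * β ∨ h = c * β ∨ h = a * c * β ∨
      h = c * a * β ∨ h = a * c * a * β ∨ h = c * a * c * β ∨ h = a * c * (a * c) * β := by
    have stepa : ∀ x : G, (∃ β ∈ Subgroup.closure B, x = β ∨ x = a * β ∨ x = c * β ∨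
        x = a * c * β ∨ x = c * a * β ∨ x = a * c * a * β ∨ x = c * a * c * β ∨
        x = a * c * (a * c) * β) → (∃ β ∈ Subgroup.closure B, x * a = β ∨ x * a = a * β ∨
        x * a = c * β ∨ x * a = a * c * β ∨ x * a = c * a * β ∨ x * a = a * c * a * β ∨
        x * a = c * a * c * β ∨ x * a = a * c * (a * c) * β) := by
      rintro x ⟨β, hβ, hx⟩
      have e := (cBa β hβ).eq
      refine ⟨β, hβ, ?_⟩
      rcases hx with rfl | rfl | rfl | rfl | rfl | rfl | rfl | rfl
      · right; left; exact e
      · left; rw [mul_assoc, e, cc ha]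
      · right; right; right; right; left; rw [mul_assoc, e, ← mul_assoc]
      · right; right; right; right; right; left; rw [mul_assoc, e, ← mul_assoc]
      · right; right; left; rw [mul_assoc, e, ← mul_assoc, mul_assoc c a a, ha, mul_one]
      · right; right; right; left
        rw [mul_assoc, e, ← mul_assoc, mul_assoc (a * c) a a, ha, mul_one]
      · right; right; right; right; right; right; right
        rw [mul_assoc, e, ← mul_assoc, sw1]
        simp only [mul_assoc]
      · right; right; right; right; right; right; left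
        rw [mul_assoc, e, ← mul_assoc, sw1]
        simp only [mul_assoc, cc ha]
    have stepc : ∀ x : G, (∃ β ∈ Subgroup.closure B, x = β ∨ x = a * β ∨ x = c * β ∨
        x = a * c * β ∨ x = c * a * β ∨ x = a * c * a * β ∨ x = c * a * c * β ∨
        x = a * c * (a * c) * β) → (∃ β ∈ Subgroup.closure B, x * c = β ∨ x * c = a * β ∨
        x * c = c * β ∨ x * c = a * c * β ∨ x * c = c * a * β ∨ x * c = a * c * a * β ∨
        x * c = c * a * c * β ∨ x * c = a * c * (a * c) * β) := by
      rintro x ⟨β, hβ, hx⟩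
      have e := (cBc β hβ).eq
      refine ⟨β, hβ, ?_⟩
      rcases hx with rfl | rfl | rfl | rfl | rfl | rfl | rfl | rfl
      · right; right; left; exact e
      · right; right; right; left; rw [mul_assoc, e, ← mul_assoc]
      · left; rw [mul_assoc, e, cc hc]
      · right; left; rw [mul_assoc, e, ← mul_assoc, mul_assoc a c c, hc, mul_one]
      · right; right; right; right; right; right; left; rw [mul_assoc, e, ← mul_assoc]
      · right; right; right; right; right; right; right
        rw [mul_assoc, e, ← mul_assoc]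
        simp only [mul_assoc]
      · right; right; right; right; left
        rw [mul_assoc, e, ← mul_assoc, mul_assoc (c * a) c c, hc, mul_one]
      · right; right; right; right; right; left
        rw [mul_assoc, e, ← mul_assoc]
        simp only [mul_assoc, cc hc]
    have stepb : ∀ b ∈ B, ∀ x : G, (∃ β ∈ Subgroup.closure B, x = β ∨ x = a * β ∨ x = c * β ∨
        x = a * c * β ∨ x = c * a * β ∨ x = a * c * a * β ∨ x = c * a * c * β ∨
        x = a * c * (a * c) * β) → (∃ β ∈ Subgroup.closure B, x * b = β ∨ x * b = a * β ∨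
        x * b = c * β ∨ x * b = a * c * β ∨ x * b = c * a * β ∨ x * b = a * c * a * β ∨
        x * b = c * a * c * β ∨ x * b = a * c * (a * c) * β) := by
      rintro b hb x ⟨β, hβ, hx⟩
      refine ⟨β * b, mul_mem hβ (Subgroup.subset_closure hb), ?_⟩
      rcases hx with rfl | rfl | rfl | rfl | rfl | rfl | rfl | rfl <;> simp [mul_assoc]
    have stepi : ∀ y ∈ B ∪ {a, c}, y⁻¹ = y := by
      rintro y (hy | hy | hy)
      · exact iinv (hB y hy)
      · rw [hy]; exact iinv ha
      · rw [Set.mem_singleton_iff] at hy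
        rw [hy]; exact iinv hc
    induction hh using Subgroup.closure_induction_right with
    | one => exact ⟨1, one_mem _, Or.inl rfl⟩
    | mul_right x _ y hy ih =>
      rcases hy with hy | hy | hy
      · exact stepb y hy x ih
      · rw [hy]; exact stepa x ih
      · rw [Set.mem_singleton_iff] at hy
        rw [hy]; exact stepc x ih
    | mul_inv_cancel x _ y hy ih =>
      rw [stepi y hy]
      rcases hy with hy | hy | hy
      · exact stepb y hy x ih
      · rw [hy]; exact stepa x ih
      · rw [Set.mem_singleton_iff] at hy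
        rw [hy]; exact stepc x ih
  obtain ⟨β, hβ, hx⟩ := key
  have iβ := sB β hβ
  have ea := cBa β hβ
  have ec := cBc β hβ
  have iaca : a * c * a * (a * c * a) = 1 := by simp only [mul_assoc, cc ha, cc hc, ha]
  have icac : c * a * c * (c * a * c) = 1 := by simp only [mul_assoc, cc ha, cc hc, hc]
  rcases hx with rfl | rfl | rfl | rfl | rfl | rfl | rfl | rfl
  · right; exact iβ
  · right; exact sq_mul ha iβ ea.symm
  · right; exact sq_mul hc iβ ec.symm
  · left; exact ⟨β, hβ, Or.inl (mul_assoc _ _ _)⟩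
  · left; exact ⟨β, hβ, Or.inr (by rw [mul_assoc, ← ea.eq, mul_assoc])⟩
  · right; exact sq_mul iaca iβ ((ea.symm.mul_left ec.symm).mul_left ea.symm)
  · right; exact sq_mul icac iβ ((ec.symm.mul_left ea.symm).mul_left ec.symm)
  · right; exact sq_mul iac iβ ((ea.symm.mul_left ec.symm).mul_left (ea.symm.mul_left ec.symm))

theorem path_d (hgen : Subgroup.closure (B ∪ {a, c, d}) = ⊤) : d ∈ rad G := by
  have hds : ∀ h ∈ Subgroup.closure (B ∪ {a, c}), CM d (cj d h) := by
    intro h hh
    rcases path_class H hB hBB ha hc hd hBa hBc hh with ⟨β, hβ, rfl | rfl⟩ | i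
    · exact CM.of_k hd (cj_sq hd _) (path_y H hB hBB ha hc hd hBa hBc hgen hβ).1
    · exact CM.of_k hd (cj_sq hd _) (path_y H hB hBB ha hc hd hBa hBc hgen hβ).2
    · exact CM.of (F1 H hd i)
  refine mainL (y := d) (T := {t | ∃ h ∈ Subgroup.closure (B ∪ {a, c}), t = cj d h}) hd
    ⟨1, one_mem _, (cj_one d).symm⟩ hgen ?_ ?_ ?_ (Subgroup.subset_normalClosure rfl)
  · rintro s (hs | hs | hs | hs)
    · exact hB s hs
    · rw [hs]; exact ha
    · rw [hs]; exact hc
    · rw [Set.mem_singleton_iff] at hs
      rw [hs]; exact hd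
  · have perm : ∀ s ∈ B ∪ {a, c}, ∀ t ∈ {t | ∃ h ∈ Subgroup.closure (B ∪ {a, c}), t = cj d h},
        cj t s ∈ {t | ∃ h ∈ Subgroup.closure (B ∪ {a, c}), t = cj d h} := by
      rintro s hs _ ⟨h, hh, rfl⟩
      exact ⟨h * s, mul_mem hh (Subgroup.subset_closure hs), cj_cj _ _ _⟩
    rintro s (hs | hs | hs | hs)
    · left; exact perm s (Or.inl hs)
    · left; exact perm s (Or.inr (Or.inl hs))
    · left; exact perm s (Or.inr (Or.inr hs))
    · right
      rintro _ ⟨h, hh, rfl⟩
      rw [Set.mem_singleton_iff] at hs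
      rw [hs]
      exact hds h hh
  · rintro _ ⟨h, hh, rfl⟩
    exact hds h hh

theorem path_b (hgen : Subgroup.closure (B ∪ {a, c, d}) = ⊤) : ∀ b ∈ B, b ∈ rad G := by
  have hdr := path_d H hB hBB ha hc hd hBa hBc hgen
  intro b hb
  refine mainC (hB b hb) hgen ?_ ?_
  · rintro s (hs | hs | hs | hs)
    · exact hB s hs
    · rw [hs]; exact ha
    · rw [hs]; exact hc
    · rw [Set.mem_singleton_iff] at hs
      rw [hs]; exact hd
  · rintro s (hs | hs | hs | hs)
    · exact CM.of (hBB s hs b hb)
    · rw [hs]; exact CM.of (hBa b hb).symm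
    · rw [hs]; exact CM.of (hBc b hb).symm
    · rw [Set.mem_singleton_iff] at hs
      rw [hs]; exact CM.rad_left hdr

theorem path_a (hgen : Subgroup.closure (B ∪ {a, c, d}) = ⊤) : a ∈ rad G := by
  have hdr := path_d H hB hBB ha hc hd hBa hBc hgen
  have hbr := path_b H hB hBB ha hc hd hBa hBc hgen
  refine mainL (y := a) (T := {a, cj a c}) ha (Or.inl rfl) hgen ?_ ?_ ?_
    (Subgroup.subset_normalClosure rfl)
  · rintro s (hs | hs | hs | hs)
    · exact hB s hs
    · rw [hs]; exact ha
    · rw [hs]; exact hc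
    · rw [Set.mem_singleton_iff] at hs
      rw [hs]; exact hd
  · rintro s (hs | hs | hs | hs)
    · right; intro t _; exact CM.rad_left (hbr s hs)
    · right
      rintro t (ht | ht)
      · rw [hs, ht]; exact CM.of (Commute.refl a)
      · rw [Set.mem_singleton_iff] at ht
        rw [hs, ht]; exact CM.of (F1 H ha hc)
    · left
      rintro t (ht | ht)
      · rw [hs, ht]; exact Or.inr rfl
      · rw [Set.mem_singleton_iff] at ht
        rw [hs, ht, cj_cj, hc, cj_one]; exact Or.inl rfl
    · right
      intro t _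
      rw [Set.mem_singleton_iff] at hs
      rw [hs]; exact CM.rad_left hdr
  · rintro t (ht | ht)
    · rw [ht]; exact CM.of (Commute.refl a)
    · rw [Set.mem_singleton_iff] at ht
      rw [ht]; exact CM.of (F1 H ha hc)

/-- **Theorem.** -/
theorem path (hgen : Subgroup.closure (B ∪ {a, c, d}) = ⊤) : LF2 G := by
  have hgen' : Subgroup.closure (B ∪ {c, a, d}) = ⊤ := by
    rw [Set.insert_comm c a]
    exact hgen
  have h1 := path_a H hB hBB ha hc hd hBa hBc hgen
  have h2 := path_a H hB hBB hc ha hd hBc hBa hgen'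
  have h3 := path_b H hB hBB ha hc hd hBa hBc hgen
  have h4 := path_d H hB hBB ha hc hd hBa hBc hgen
  refine lf2_of_rad_top hgen ?_
  rintro s (hs | hs | hs | hs)
  · exact h3 s hs
  · rw [hs]; exact h1
  · rw [hs]; exact h2
  · rw [Set.mem_singleton_iff] at hs
    rw [hs]; exact h4

end path

end Pool.Agent.H381.P4
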