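import Pool.Agent.H381.P4.B

/-!
# Two commuting pairs without a common element
-/

set_option autoImplicit false

namespace Pool.Agent.H381.P4

open Pool.Agent.H678.Inv
open Pool.Agent.W5h59.Bu (LFn LF2 rad rad_lf rad_quot le_rad lf_of_comm)

universe u

variable {G : Type u} [Group G]

section gens

variable {S : Set G}

theorem gen4 {e f c d : G} {P : G → Prop} (he : P e) (hf : P f) (hc : P c) (hd : P d) :
    ∀ s ∈ ({e, f, c, d} : Set G), P s := by
  rintro s (hs | hs | hs | hs)
  · rw [hs]; exact he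
  · rw [hs]; exact hf
  · rw [hs]; exact hc
  · rw [Set.mem_singleton_iff] at hs
    rw [hs]; exact hd

end gens

section match4

variable (H : E2 G) {c d : G} (hc : c * c = 1) (hd : d * d = 1) (hcd : Commute c d)
include H hc hd hcd

theorem m_delta {e f : G} (he : e * e = 1) (hf : f * f = 1) (hef : Commute e f)
    (hgen : Subgroup.closure ({e, f, c, d} : Set G) = ⊤) :
    k (cj c e) (k c (cj d f)) ∈ rad G := by
  obtain ⟨h1, h2, h3, h4⟩ := D1 H hc hd he hf hcd hef
  refine mainC (H _ _ (cj_sq hc e) (H _ _ hc (cj_sq hd f))) hgen (gen4 he hf hc hd) ?_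
  exact gen4 (P := fun s => CM s (k (cj c e) (k c (cj d f)))) (CM.of h3.symm) (CM.of h4.symm)
    (CM.of h1.symm) (CM.of h2.symm)

theorem m_beta {e f : G} (he : e * e = 1) (hf : f * f = 1) (hef : Commute e f)
    (hgen : Subgroup.closure ({e, f, c, d} : Set G) = ⊤) : k c (cj d f) ∈ rad G := by
  have hgen' : Subgroup.closure ({e, f, d, c} : Set G) = ⊤ := by
    rw [Set.pair_comm d c]; exact hgen
  have d1 := m_delta H hc hd hcd he hf hef hgen
  have d2 := m_delta H hd hc hcd.symm he hf hef hgen'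
  obtain ⟨b1, b2, b3, b4, b5⟩ := B1 H hc hd hf hcd
  have ib : k c (cj d f) * k c (cj d f) = 1 := H _ _ hc (cj_sq hd f)
  have c1 : CM c (cj (k c (cj d f)) e) := by
    apply CM.of_k hc (cj_sq ib e)
    have := cj_rad d1 e
    rwa [cj_k, cj_cj, he, cj_one] at this
  have c2 : CM d (cj (k c (cj d f)) e) := by
    apply CM.of_k hd (cj_sq ib e)
    have := cj_rad d2 e
    rwa [cj_k, cj_cj, he, cj_one, ← b1] at this
  have hT : ∀ {s : G}, CM s (k c (cj d f)) → CM s (cj (k c (cj d f)) e) →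
      ∀ t ∈ ({k c (cj d f), cj (k c (cj d f)) e} : Set G), CM s t := by
    rintro s h1 h2 t (ht | ht)
    · rw [ht]; exact h1
    · rw [Set.mem_singleton_iff] at ht
      rw [ht]; exact h2
  refine mainL (y := c) (T := {k c (cj d f), cj (k c (cj d f)) e}) ib (Or.inl rfl) hgen
    (gen4 he hf hc hd) ?_ (hT (CM.of b3.symm) c1) ?_
  · refine gen4 (P := fun s => (∀ t ∈ ({k c (cj d f), cj (k c (cj d f)) e} : Set G),
      cj t s ∈ ({k c (cj d f), cj (k c (cj d f)) e} : Set G)) ∨
      (∀ t ∈ ({k c (cj d f), cj (k c (cj d f)) e} : Set G), CM s t)) ?_ ?_ ?_ ?_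
    · left
      rintro t (ht | ht)
      · rw [ht]; exact Or.inr rfl
      · rw [Set.mem_singleton_iff] at ht
        rw [ht, cj_cj, he, cj_one]; exact Or.inl rfl
    · left
      rintro t (ht | ht)
      · rw [ht, cj_of_comm b2]; exact Or.inl rfl
      · rw [Set.mem_singleton_iff] at ht
        rw [ht, cj_cj, hef.eq, ← cj_cj, cj_of_comm b2]; exact Or.inr rfl
    · right
      exact hT (CM.of b3.symm) c1
    · right
      exact hT (CM.of b4.symm) c2
  · rw [k_eq (cj_sq hd f)]
    have h := Subgroup.normalClosure_normal (s := ({c} : Set G))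
    have h1 : c ∈ Subgroup.normalClosure {c} := Subgroup.subset_normalClosure rfl
    refine mul_mem h1 ?_
    have := h.conj_mem c h1 (cj d f)⁻¹
    rwa [inv_inv] at this

theorem m_c {a b : G} (ha : a * a = 1) (hb : b * b = 1) (hab : Commute a b)
    (hgen : Subgroup.closure ({a, b, c, d} : Set G) = ⊤) : c ∈ rad G := by
  have iab : a * b * (a * b) = 1 := sq_mul ha hb hab
  have g2 : Subgroup.closure ({b, a, c, d} : Set G) = ⊤ := by
    rw [Set.insert_comm b a]; exact hgen
  have g3 : Subgroup.closure ({a, a * b, c, d} : Set G) = ⊤ := by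
    rw [eq_top_iff, ← hgen, Subgroup.closure_le]
    have ma : a ∈ Subgroup.closure ({a, a * b, c, d} : Set G) :=
      Subgroup.subset_closure (Or.inl rfl)
    have mab : a * b ∈ Subgroup.closure ({a, a * b, c, d} : Set G) :=
      Subgroup.subset_closure (Or.inr (Or.inl rfl))
    refine gen4 (P := fun s => s ∈ Subgroup.closure ({a, a * b, c, d} : Set G)) ma ?_ ?_ ?_
    · have := mul_mem ma mab
      rwa [cc ha] at this
    · exact Subgroup.subset_closure (Or.inr (Or.inr (Or.inl rfl)))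
    · exact Subgroup.subset_closure (Or.inr (Or.inr (Or.inr rfl)))
  have b1 := m_beta H hc hd hcd ha hb hab hgen
  have b2 := m_beta H hc hd hcd hb ha hab.symm g2
  have b3 := m_beta H hc hd hcd ha iab ((Commute.refl a).mul_right hab) g3
  have cd : ∀ f : G, f * f = 1 → k c (cj d f) ∈ rad G → CM d (cj c f) := by
    intro f hf h
    apply CM.of_k hd (cj_sq hc f)
    rw [← (B1 H hc hd hf hcd).1]
    exact h
  have hT : ∀ {s : G}, CM s c → CM s (cj c a) → CM s (cj c b) → CM s (cj c (a * b)) →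
      ∀ t ∈ ({c, cj c a, cj c b, cj c (a * b)} : Set G), CM s t := by
    intro s h1 h2 h3 h4
    exact gen4 (P := fun t => CM s t) h1 h2 h3 h4
  have hcT : ∀ t ∈ ({c, cj c a, cj c b, cj c (a * b)} : Set G), CM c t :=
    hT (CM.of (Commute.refl c)) (CM.of (F1 H hc ha)) (CM.of (F1 H hc hb)) (CM.of (F1 H hc iab))
  refine mainL (y := c) (T := {c, cj c a, cj c b, cj c (a * b)}) hc (Or.inl rfl) hgen
    (gen4 ha hb hc hd) ?_ hcT (Subgroup.subset_normalClosure rfl)
  refine gen4 (P := fun s => (∀ t ∈ ({c, cj c a, cj c b, cj c (a * b)} : Set G),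
      cj t s ∈ ({c, cj c a, cj c b, cj c (a * b)} : Set G)) ∨
      (∀ t ∈ ({c, cj c a, cj c b, cj c (a * b)} : Set G), CM s t)) ?_ ?_ ?_ ?_
  · left
    refine gen4 (P := fun t => cj t a ∈ ({c, cj c a, cj c b, cj c (a * b)} : Set G)) ?_ ?_ ?_ ?_
    · exact Or.inr (Or.inl rfl)
    · rw [cj_cj, ha, cj_one]; exact Or.inl rfl
    · rw [cj_cj, ← hab.eq]; exact Or.inr (Or.inr (Or.inr rfl))
    · rw [cj_cj, mul_assoc, ← hab.eq, cc ha]; exact Or.inr (Or.inr (Or.inl rfl))
  · left
    refine gen4 (P := fun t => cj t b ∈ ({c, cj c a, cj c b, cj c (a * b)} : Set G)) ?_ ?_ ?_ ?_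
    · exact Or.inr (Or.inr (Or.inl rfl))
    · rw [cj_cj]; exact Or.inr (Or.inr (Or.inr rfl))
    · rw [cj_cj, hb, cj_one]; exact Or.inl rfl
    · rw [cj_cj, mul_assoc, hb, mul_one]; exact Or.inr (Or.inl rfl)
  · right; exact hcT
  · right
    exact hT (CM.of hcd.symm) (cd a ha b2) (cd b hb b1) (cd _ iab b3)

end match4

/-- **Theorem.** -/
theorem matching (H : E2 G) {a b c d : G} (ha : a * a = 1) (hb : b * b = 1) (hc : c * c = 1)
    (hd : d * d = 1) (hab : Commute a b) (hcd : Commute c d)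
    (hgen : Subgroup.closure ({a, b, c, d} : Set G) = ⊤) : LF2 G := by
  have g2 : Subgroup.closure ({a, b, d, c} : Set G) = ⊤ := by
    rw [Set.pair_comm d c]; exact hgen
  have g3 : Subgroup.closure ({c, d, a, b} : Set G) = ⊤ := by
    rw [← hgen]
    congr 1
    ext x
    simp only [Set.mem_insert_iff, Set.mem_singleton_iff]
    tauto
  have g4 : Subgroup.closure ({c, d, b, a} : Set G) = ⊤ := by
    rw [Set.pair_comm b a]; exact g3
  refine lf2_of_rad_top hgen (gen4 ?_ ?_ ?_ ?_)
  · exact m_c H ha hb hab hc hd hcd g3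
  · exact m_c H hb ha hab.symm hc hd hcd g4
  · exact m_c H hc hd hcd ha hb hab hgen
  · exact m_c H hd hc hcd.symm ha hb hab g2

end Pool.Agent.H381.P4
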