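import Pool.Agent.H381.P4.C

/-!
# Noncommuting graphs of girth at least five
-/

set_option autoImplicit false

namespace Pool.Agent.H381.P4

open Pool.Agent.H678.Inv
open Pool.Agent.W5h59.Bu (LFn LF2 rad rad_lf rad_quot le_rad lf_of_comm)

universe u

variable {G : Type u} [Group G]

theorem cj_k_mul (H : E2 G) {x y : G} (hx : x * x = 1) (hy : y * y = 1) :
    cj x y = x * k x y := by
  rw [k_eq hy, cc hx]

/-- the path with four vertices -/
theorem P4 (H : E2 G) {a b c d : G} (ha : a * a = 1) (hb : b * b = 1) (hc : c * c = 1)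
    (hd : d * d = 1) (hac : Commute a c) (hbd : Commute b d) (had : Commute a d) :
    Commute (k (k a b) c) d := by
  set P := k a b with hP
  set Q := k c d with hQ
  set R := k b c with hR
  have iP : P * P = 1 := H _ _ ha hb
  have iQ : Q * Q = 1 := H _ _ hc hd
  have iR : R * R = 1 := H _ _ hb hc
  set s := k P c with hs
  set r := k R d with hr
  have is : s * s = 1 := H _ _ iP hc
  have ir : r * r = 1 := H _ _ iR hd
  have hRc : R = k c b := sw H hb hc
  have hQd : Q = k d c := sw H hc hd
  have s1 : s = k R a := by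
    rw [hs, hP, hRc]
    exact P1 H ha hc hb hac
  have PR : Commute P R := by
    rw [hRc]
    exact P2 H ha hc hb hac
  have QR : Commute Q R := by
    rw [hQd, hR]
    exact P2 H hd hb hc hbd.symm
  have Pd : Commute P d := (co_k had.symm hbd.symm).symm
  have Qa : Commute Q a := (co_k hac had).symm
  have sP : Commute s P := kl iP hc is
  have sc : Commute s c := kr iP hc is
  have sQ : Commute s Q := by
    rw [s1]
    exact (co_k QR Qa).symm
  have sR : Commute s R := by
    have h1 : k R a * k R a = 1 := H _ _ iR ha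
    rw [s1]
    exact kl iR ha h1
  have rR : Commute r R := kl iR hd ir
  have rP : Commute r P := (co_k PR Pd).symm
  have r1 : r = k Q b := by
    rw [hr, hR, hQd]
    exact P1 H hb hd hc hbd
  have rQ : Commute r Q := by
    have h1 : k Q b * k Q b = 1 := H _ _ iQ hb
    rw [r1]
    exact kl iQ hb h1
  have sr : Commute s r := by
    rw [s1, hr, sw H iR ha, sw H iR hd]
    exact P2 H ha hd iR had
  -- the relation for `a c` and `b d`
  have iac : a * c * (a * c) = 1 := sq_mul ha hc hac
  have ibd : b * d * (b * d) = 1 := sq_mul hb hd hbd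
  have e1 : k a (b * d) = P := by
    rw [hbd.eq, k_cut hd had hbd.symm]
  have e2 : k c (b * d) = R * r * Q := by
    rw [sw H hc ibd, k_mul_left hb hd hc hbd]
    have : d * R * d = R * r := by
      rw [← cj_k_mul H iR hd]
      unfold cj
      rw [iinv hd]
    rw [← hR, this, ← hQd]
  have e3 : k (a * c) (b * d) = P * s * (R * r * Q) := by
    rw [k_mul_left ha hc ibd hac, e1, e2]
    have : c * P * c = P * s := by
      rw [hs, ← cj_k_mul H iP hc]
      unfold cj
      rw [iinv hc]
    rw [this]
  have e4 : k (a * c) (b * d) = P * Q * (s * R * r) := by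
    rw [e3]
    have h1 : Commute (s * R * r) Q := (sQ.mul_left QR.symm).mul_left rQ
    calc P * s * (R * r * Q) = P * (s * R * r * Q) := by simp only [mul_assoc]
      _ = P * (Q * (s * R * r)) := by rw [h1.eq]
      _ = _ := by simp only [mul_assoc]
  have e5 : k P Q = 1 := by
    have h1 := H _ _ iac ibd
    rw [e4] at h1
    have c1 : Commute (s * R * r) (P * Q) :=
      ((sP.mul_right sQ).mul_left (PR.symm.mul_right QR.symm)).mul_left (rP.mul_right rQ)
    have c2 : s * R * r * (s * R * r) = 1 :=
      sq_mul (sq_mul is iR sR) ir (sr.mul_left rR.symm)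
    have h2 : P * Q * (s * R * r) * (P * Q * (s * R * r)) = k P Q := by
      calc P * Q * (s * R * r) * (P * Q * (s * R * r))
          = P * Q * (s * R * r * (P * Q)) * (s * R * r) := by simp only [mul_assoc]
        _ = P * Q * (P * Q * (s * R * r)) * (s * R * r) := by rw [c1.eq]
        _ = k P Q * (s * R * r * (s * R * r)) := by unfold k; simp only [mul_assoc]
        _ = k P Q := by rw [c2, mul_one]
    rw [h2] at h1
    exact h1
  have e6 : k Q P = 1 := by rw [sw H iQ iP, e5]
  -- compute `k Q P` in another way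
  have icd := cj_sq hc d
  have hQ' : Q = c * cj c d := k_eq hd
  have e7 : k Q P = s * (s * k s d) := by
    have h1 : k Q P = cj c d * k c P * cj c d * k (cj c d) P := by
      conv_lhs => rw [hQ']
      exact k_mul_left hc icd iP (F1 H hc hd)
    have h2 : k c P = s := sw H hc iP
    have h3 : Commute s (cj c d) := by
      rw [cj_k_mul H hc hd]
      exact sc.mul_right sQ
    have h4 : k (cj c d) P = s * k s d := by
      rw [← cj_k_mul H is hd, ← h2, cj_k, cj_of_comm Pd]
    rw [h1, h2, h4, ← h3.eq, mul_assoc s, icd, mul_one]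
  have e8 : k s d = 1 := by
    rw [e6, cc is] at e7
    exact e7.symm
  exact co_one is hd e8

section graph

variable (H : E2 G) {S : Set G} (hS : ∀ s ∈ S, s * s = 1)
  (tri : ∀ x ∈ S, ∀ y ∈ S, ∀ z ∈ S, Commute x y ∨ Commute y z ∨ Commute x z)
  (quad : ∀ w ∈ S, ∀ x ∈ S, ∀ y ∈ S, ∀ z ∈ S, w ≠ y → x ≠ z →
    Commute w x ∨ Commute x y ∨ Commute y z ∨ Commute z w)

/-- the neighbours -/
def Nb (S : Set G) (l : G) : Set G := {x | x ∈ S ∧ ¬ Commute x l}

include tri in
theorem nb_comm {l : G} (hl : l ∈ S) : ∀ x ∈ Nb S l, ∀ y ∈ Nb S l, Commute x y := by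
  intro x hx y hy
  rcases tri x hx.1 y hy.1 l hl with h | h | h
  · exact h
  · exact absurd h hy.2
  · exact absurd h hx.2

include hS in
theorem nb_sq (l : G) : ∀ x ∈ Nb S l, x * x = 1 := fun x hx => hS x hx.1

include quad in
theorem nb_other {l z m m' : G} (hl : l ∈ S) (hz : z ∈ S) (hlz : l ≠ z) (hm : m ∈ Nb S l)
    (hm' : m' ∈ Nb S l) (hmz : ¬ Commute z m) (hne : m' ≠ m) : Commute z m' := by
  rcases quad l hl m hm.1 z hz m' hm'.1 hlz hne.symm with h | h | h | h
  · exact absurd h.symm hm.2
  · exact absurd h.symm hmz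
  · exact h
  · exact absurd h hm'.2

include H hS tri quad

/-- `z` commutes with the conjugates of the star element -/
theorem star_comm {l x y z : G} (hl : l ∈ S) (hx : x ∈ Nb S l) (hy : y ∈ Nb S l) (hxy : x ≠ y)
    (hz : z ∈ S) (hlz : l ≠ z) (hzl : Commute z l) :
    ∀ g ∈ Subgroup.closure (Nb S l), Commute z (cj (k (k l x) y) g) := by
  have il := hS l hl
  have ix := hS x hx.1
  have iy := hS y hy.1
  have iz := hS z hz
  have cxy : Commute x y := nb_comm tri hl x hx y hy
  set β := k (k l x) y with hβ
  have ilx := H _ _ il ix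
  have ily := H _ _ il iy
  have iβ : β * β = 1 := H _ _ ilx iy
  have b1 : β = k (k x l) y := by rw [hβ, sw H il ix]
  have b2 : β = k (k y l) x := by rw [b1]; exact P1 H ix iy il cxy
  have b3 : β = k x (k l y) := by
    rw [b2, sw H iy il]
    exact sw H ily ix
  have βy : Commute β y := kr ilx iy iβ
  have βx : Commute β x := by
    have h1 : k (k y l) x * k (k y l) x = 1 := H _ _ (H _ _ iy il) ix
    rw [b2]
    exact kr (H _ _ iy il) ix h1
  by_cases hall : ∀ m ∈ Nb S l, Commute z m
  · intro g hg
    have hzβ : Commute z β := co_k (co_k hzl (hall x hx)) (hall y hy)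
    have hzg : Commute g z := clo_comm (fun b hb => (hall b hb).symm) g hg
    have := comm_cj hzβ g
    rwa [cj_of_comm hzg.symm] at this
  · push Not at hall
    obtain ⟨m, hm, hmz⟩ := hall
    have oth : ∀ m' ∈ Nb S l, m' ≠ m → Commute z m' := fun m' hm' hne =>
      nb_other quad hl hz hlz hm hm' hmz hne
    have im := hS m hm.1
    have base : Commute z β ∧ Commute z (cj β m) := by
      by_cases hmx : m = x
      · subst hmx
        have zy : Commute z y := oth y hy hxy.symm
        have h1 : Commute z β := by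
          rw [b2]
          exact (P4 H iy il im iz cxy.symm hzl.symm zy.symm).symm
        exact ⟨h1, by rw [cj_of_comm βx]; exact h1⟩
      by_cases hmy : m = y
      · subst hmy
        have zx : Commute z x := oth x hx hxy
        have h1 : Commute z β := by
          rw [b1]
          exact (P4 H ix il im iz cxy hzl.symm zx.symm).symm
        exact ⟨h1, by rw [cj_of_comm βy]; exact h1⟩
      · have zx : Commute z x := oth x hx (fun h => hmx h.symm)
        have zy : Commute z y := oth y hy (fun h => hmy h.symm)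
        have h1 : Commute z β := co_k (co_k hzl zx) zy
        have h2 : Commute (k (k x (k l y)) m) z :=
          P4 H ix ily im iz (nb_comm tri hl x hx m hm) (co_k hzl zy).symm zx.symm
        rw [← b3] at h2
        refine ⟨h1, ?_⟩
        rw [cj_k_mul H iβ im]
        exact h1.mul_right h2.symm
    have key : ∀ g ∈ Subgroup.closure (Nb S l), Commute z (cj β g) ∧ Commute z (cj β (g * m)) := by
      have step : ∀ g y, y ∈ Nb S l → (Commute z (cj β g) ∧ Commute z (cj β (g * m))) →
          (Commute z (cj β (g * y)) ∧ Commute z (cj β (g * y * m))) := by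
        rintro g m' hm' ⟨h1, h2⟩
        by_cases hne : m' = m
        · subst hne
          refine ⟨h2, ?_⟩
          rw [mul_assoc, im, mul_one]
          exact h1
        · have zm' := oth m' hm' hne
          refine ⟨?_, ?_⟩
          · have := comm_cj h1 m'
            rwa [cj_of_comm zm', cj_cj] at this
          · have := comm_cj h2 m'
            rw [cj_of_comm zm', cj_cj] at this
            rw [mul_assoc, (nb_comm tri hl m' hm' m hm).eq, ← mul_assoc]
            exact this
      intro g hg
      induction hg using Subgroup.closure_induction_right with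
      | one => rw [cj_one, one_mul]; exact base
      | mul_right x _ y hy ih => exact step x y hy ih
      | mul_inv_cancel x _ y hy ih =>
        rw [iinv (nb_sq hS l y hy)]
        exact step x y hy ih
    intro g hg
    exact (key g hg).1

/-- `l` commutes with the conjugates of the star element -/
theorem star_self {l x y : G} (hl : l ∈ S) (hx : x ∈ Nb S l) (hy : y ∈ Nb S l) :
    ∀ g ∈ Subgroup.closure (Nb S l), Commute l (cj (k (k l x) y) g) := by
  intro g hg
  have il := hS l hl
  have ix := hS x hx.1
  have iy := hS y hy.1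
  have sq := clo_sq (nb_sq hS l) (nb_comm tri hl)
  have mx : x ∈ Subgroup.closure (Nb S l) := Subgroup.subset_closure hx
  have my : y ∈ Subgroup.closure (Nb S l) := Subgroup.subset_closure hy
  have c : ∀ h ∈ Subgroup.closure (Nb S l), Commute l (cj l h) := fun h hh => F1 H il (sq h hh)
  have e : k (k l x) y = l * cj l x * (cj l y * cj l (x * y)) := by
    rw [k_eq iy, k_eq ix, cj_mul, cj_cj]
  rw [e, cj_mul, cj_mul, cj_mul, cj_cj, cj_cj, cj_cj]
  exact ((c _ hg).mul_right (c _ (mul_mem mx hg))).mul_right
    ((c _ (mul_mem my hg)).mul_right (c _ (mul_mem (mul_mem mx my) hg)))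

theorem star_rad (hgen : Subgroup.closure S = ⊤) {l x y : G} (hl : l ∈ S) (hx : x ∈ Nb S l)
    (hy : y ∈ Nb S l) (hxy : x ≠ y) : k (k l x) y ∈ rad G := by
  have il := hS l hl
  have ix := hS x hx.1
  have iy := hS y hy.1
  refine mainL (y := l)
    (T := {t | ∃ g ∈ Subgroup.closure (Nb S l), t = cj (k (k l x) y) g})
    (H _ _ (H _ _ il ix) iy) ⟨1, one_mem _, (cj_one _).symm⟩ hgen hS ?_ ?_ ?_
  · intro s hs
    by_cases hsl : Commute s l
    · right
      rintro _ ⟨g, hg, rfl⟩
      by_cases hne : l = s
      · rw [← hne]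
        exact CM.of (star_self H hS tri quad hl hx hy g hg)
      · exact CM.of (star_comm H hS tri quad hl hx hy hxy hs hne hsl g hg)
    · left
      rintro _ ⟨g, hg, rfl⟩
      exact ⟨g * s, mul_mem hg (Subgroup.subset_closure ⟨hs, hsl⟩), cj_cj _ _ _⟩
  · rintro _ ⟨g, hg, rfl⟩
    exact CM.of (star_self H hS tri quad hl hx hy g hg)
  · have e : k (k l x) y = cj l 1 * cj l x * (cj l y * cj l (x * y)) := by
      rw [k_eq iy, k_eq ix, cj_mul, cj_cj, cj_one]
    rw [e]
    exact mul_mem (mul_mem (cj_mem_nc _ _) (cj_mem_nc _ _))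
      (mul_mem (cj_mem_nc _ _) (cj_mem_nc _ _))

theorem vertex_comm (hgen : Subgroup.closure S = ⊤) {x y : G} (hx : x ∈ S) (hy : y ∈ S)
    (hxy : Commute y x) : ∀ h ∈ Subgroup.closure (Nb S x), CM y (cj x h) := by
  have ix := hS x hx
  have iy := hS y hy
  have sq := clo_sq (nb_sq hS x) (nb_comm tri hx)
  intro h hh
  by_cases hne : x = y
  · rw [← hne]
    exact CM.of (F1 H ix (sq h hh))
  by_cases hall : ∀ m ∈ Nb S x, Commute y m
  · have hyh : Commute h y := clo_comm (fun b hb => (hall b hb).symm) h hh
    have := comm_cj hxy h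
    rw [cj_of_comm hyh.symm] at this
    exact CM.of this
  · push Not at hall
    obtain ⟨l, hl, hly⟩ := hall
    have il := hS l hl.1
    have oth : ∀ m' ∈ Nb S x, m' ≠ l → Commute y m' := fun m' hm' hne' =>
      nb_other quad hx hy hne hl hm' hly hne'
    have base : CM y (cj x l) := by
      apply CM.of_k iy (cj_sq ix l)
      have e := (B1 H iy ix il hxy).2.2.2.2
      rw [e, sw H iy il]
      exact star_rad H hS tri quad hgen hl.1 ⟨hy, hly⟩ ⟨hx, fun h => hl.2 h.symm⟩
        (fun h => hne h.symm)
    have step : ∀ g y', y' ∈ Nb S x → (CM y (cj x g) ∧ CM y (cj x (g * l))) →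
        (CM y (cj x (g * y')) ∧ CM y (cj x (g * y' * l))) := by
      rintro g m' hm' ⟨h1, h2⟩
      by_cases hne' : m' = l
      · subst hne'
        refine ⟨h2, ?_⟩
        rw [mul_assoc, il, mul_one]
        exact h1
      · have ym' := oth m' hm' hne'
        refine ⟨?_, ?_⟩
        · have := h1.conj m'
          rwa [cj_of_comm ym', cj_cj] at this
        · have := h2.conj m'
          rw [cj_of_comm ym', cj_cj] at this
          rw [mul_assoc, (nb_comm tri hx m' hm' l hl).eq, ← mul_assoc]
          exact this
    have key : CM y (cj x h) ∧ CM y (cj x (h * l)) := by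
      induction hh using Subgroup.closure_induction_right with
      | one => rw [cj_one, one_mul]; exact ⟨CM.of hxy, base⟩
      | mul_right g _ y' hy' ih => exact step g y' hy' ih
      | mul_inv_cancel g _ y' hy' ih =>
        rw [iinv (nb_sq hS x y' hy')]
        exact step g y' hy' ih
    exact key.1

theorem vertex_rad (hgen : Subgroup.closure S = ⊤) {x : G} (hx : x ∈ S) : x ∈ rad G := by
  have ix := hS x hx
  have hself : ∀ t ∈ {t | ∃ g ∈ Subgroup.closure (Nb S x), t = cj x g}, CM x t := by
    rintro _ ⟨g, hg, rfl⟩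
    exact vertex_comm H hS tri quad hgen hx hx (Commute.refl x) g hg
  refine mainL (y := x) (T := {t | ∃ g ∈ Subgroup.closure (Nb S x), t = cj x g}) ix
    ⟨1, one_mem _, (cj_one _).symm⟩ hgen hS ?_ hself (Subgroup.subset_normalClosure rfl)
  intro s hs
  by_cases hsx : Commute s x
  · right
    rintro _ ⟨g, hg, rfl⟩
    exact vertex_comm H hS tri quad hgen hx hs hsx g hg
  · left
    rintro _ ⟨g, hg, rfl⟩
    exact ⟨g * s, mul_mem hg (Subgroup.subset_closure ⟨hs, hsx⟩), cj_cj _ _ _⟩

/-- **Theorem.** -/
theorem girth (hgen : Subgroup.closure S = ⊤) : LF2 G :=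
  lf2_of_rad_top hgen (fun _ hs => vertex_rad H hS tri quad hgen hs)

end graph

end Pool.Agent.H381.P4
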