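import Pool.Agent.H381.P4.E

/-!
# Noncommuting graphs without four-cycles and with disjoint triangles: group theoretic lemmas
-/

set_option autoImplicit false

namespace Pool.Agent.H381.P4

open Pool.Agent.H678.Inv
open Pool.Agent.W5h59.Bu (LFn LF2 rad rad_lf rad_quot le_rad lf_of_comm)

universe u

variable {G : Type u} [Group G]

/-- eight types of elements -/
def W8 (a c : G) (β h : G) : Prop := h = β ∨ h = a * β ∨ h = c * β ∨ h = a * c * β ∨
      h = c * a * β ∨ h = a * c * a * β ∨ h = c * a * c * β ∨ h = a * c * (a * c) * β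

theorem class8 (H : E2 G) {B : Set G} {a c : G} (hB : ∀ b ∈ B, b * b = 1)
    (ha : a * a = 1) (hc : c * c = 1)
    (hBa : ∀ b ∈ B, Commute b a) (hBc : ∀ b ∈ B, Commute b c) {h : G}
    (hh : h ∈ Subgroup.closure (B ∪ {a, c})) : ∃ β ∈ Subgroup.closure B, W8 a c β h := by
  have cBa := clo_comm hBa
  have cBc := clo_comm hBc
  have sw1 : a * c * (a * c) = c * a * (c * a) := sw H ha hc
  have stepa : ∀ x : G, (∃ β ∈ Subgroup.closure B, W8 a c β x) →
      (∃ β ∈ Subgroup.closure B, W8 a c β (x * a)) := by
    rintro x ⟨β, hβ, hx⟩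
    have e := (cBa β hβ).eq
    refine ⟨β, hβ, ?_⟩
    unfold W8
    rcases hx with rfl | rfl | rfl | rfl | rfl | rfl | rfl | rfl
    · right; left; exact e
    · left; rw [mul_assoc, e, cc ha]
    · right; right; right; right; left; rw [mul_assoc, e, ← mul_assoc]
    · right; right; right; right; right; left; rw [mul_assoc, e, ← mul_assoc]
    · right; right; left; rw [mul_assoc, e, ← mul_assoc, mul_assoc c a a, ha, mul_one]
    · right; right; right; left
      rw [mul_assoc, e, ← mul_assoc, mul_assoc (a * c) a a, ha, mul_one]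
    · right; right; right; right; right; right; right
      rw [mul_assoc, e, ← mul_assoc, sw1]
      simp only [mul_assoc]
    · right; right; right; right; right; right; left
      rw [mul_assoc, e, ← mul_assoc, sw1]
      simp only [mul_assoc, cc ha]
  have stepc : ∀ x : G, (∃ β ∈ Subgroup.closure B, W8 a c β x) →
      (∃ β ∈ Subgroup.closure B, W8 a c β (x * c)) := by
    rintro x ⟨β, hβ, hx⟩
    have e := (cBc β hβ).eq
    refine ⟨β, hβ, ?_⟩
    unfold W8
    rcases hx with rfl | rfl | rfl | rfl | rfl | rfl | rfl | rfl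
    · right; right; left; exact e
    · right; right; right; left; rw [mul_assoc, e, ← mul_assoc]
    · left; rw [mul_assoc, e, cc hc]
    · right; left; rw [mul_assoc, e, ← mul_assoc, mul_assoc a c c, hc, mul_one]
    · right; right; right; right; right; right; left; rw [mul_assoc, e, ← mul_assoc]
    · right; right; right; right; right; right; right
      rw [mul_assoc, e, ← mul_assoc]
      simp only [mul_assoc]
    · right; right; right; right; left
      rw [mul_assoc, e, ← mul_assoc, mul_assoc (c * a) c c, hc, mul_one]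
    · right; right; right; right; right; left
      rw [mul_assoc, e, ← mul_assoc]
      simp only [mul_assoc, cc hc]
  have stepb : ∀ b ∈ B, ∀ x : G, (∃ β ∈ Subgroup.closure B, W8 a c β x) →
      (∃ β ∈ Subgroup.closure B, W8 a c β (x * b)) := by
    rintro b hb x ⟨β, hβ, hx⟩
    refine ⟨β * b, mul_mem hβ (Subgroup.subset_closure hb), ?_⟩
    unfold W8
    rcases hx with rfl | rfl | rfl | rfl | rfl | rfl | rfl | rfl <;> simp [mul_assoc]
  have stepi : ∀ y ∈ B ∪ {a, c}, y⁻¹ = y := by
    rintro y (hy | hy | hy)
    · exact iinv (hB y hy)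
    · rw [hy]; exact iinv ha
    · rw [Set.mem_singleton_iff] at hy
      rw [hy]; exact iinv hc
  induction hh using Subgroup.closure_induction_right with
  | one => exact ⟨1, one_mem _, Or.inl rfl⟩
  | mul_right x _ y hy ih =>
    rcases hy with hy | hy | hy
    · exact stepb y hy x ih
    · rw [hy]; exact stepa x ih
    · rw [Set.mem_singleton_iff] at hy
      rw [hy]; exact stepc x ih
  | mul_inv_cancel x _ y hy ih =>
    rw [stepi y hy]
    rcases hy with hy | hy | hy
    · exact stepb y hy x ih
    · rw [hy]; exact stepa x ih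
    · rw [Set.mem_singleton_iff] at hy
      rw [hy]; exact stepc x ih

section lem

variable (H : E2 G)
include H

theorem Zt {x a c z : G} (hx : x * x = 1) (ha : a * a = 1) (hc : c * c = 1) (hz : z * z = 1)
    (hzx : Commute z x) (hzc : Commute z c) : Commute z (k (cj x a) (cj x c)) := by
  have icz : c * z * (c * z) = 1 := sq_mul hc hz hzc.symm
  obtain ⟨_, w2, _⟩ := Z H hx ha icz
  obtain ⟨_, v2, _⟩ := Z H hx ha hc
  have e : cj x (c * z) = cj x c := by
    rw [← hzc.eq, ← cj_cj, cj_of_comm hzx.symm]
  rw [e] at w2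
  have := v2.mul_right w2
  rw [cc hc] at this
  exact this.symm

theorem P5 {z g l x : G} (hz : z * z = 1) (hg : g * g = 1) (hl : l * l = 1) (hx : x * x = 1)
    (h1 : Commute z l) (h2 : Commute g x) (h3 : Commute z x) : Commute z (cj (k l x) g) := by
  have iL : k l x * k l x = 1 := H _ _ hl hx
  have hzL : Commute z (k l x) := co_k h1 h3
  have iu : k z g * k z g = 1 := H _ _ hz hg
  have ux : Commute (k z g) x := (co_k h3.symm h2.symm).symm
  have e1 : k z (cj (k l x) g) = k (k z g) (k l x) := (B1 H hz iL hg hzL).2.2.2.2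
  have e2 : k (k (k z g) l) x = k (k x l) (k z g) := P1 H iu hx hl ux
  have e3 : Commute (k (k z g) l) x := P4 H hz hg hl hx h1 h2 h3
  have e4 : k (k (k z g) l) x = 1 := k_one (H _ _ iu hl) hx e3
  rw [e4] at e2
  have e5 : k (k l x) (k z g) = 1 := by rw [sw H hl hx]; exact e2.symm
  apply co_one hz (cj_sq iL g)
  rw [e1, sw H iu iL, e5]

/-- conjugates of star elements -/
theorem SC {l x y z m : G} {N : Set G} (hl : l * l = 1) (hx : x * x = 1) (hy : y * y = 1)
    (hz : z * z = 1) (hN : ∀ b ∈ N, b * b = 1) (hm : m ∈ N) (hmN : ∀ b ∈ N, Commute b m)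
    (hzN : ∀ b ∈ N, b ≠ m → Commute z b) (hzl : Commute z l) (hxy : Commute x y) (hne : x ≠ y)
    (hxm : Commute x m) (hym : Commute y m) (hzx : x ≠ m → Commute z x)
    (hzy : y ≠ m → Commute z y) :
    ∀ g ∈ Subgroup.closure N, Commute z (cj (k (k l x) y) g) := by
  have im := hN m hm
  set β := k (k l x) y with hβ
  have ilx := H _ _ hl hx
  have ily := H _ _ hl hy
  have iβ : β * β = 1 := H _ _ ilx hy
  have b1 : β = k (k x l) y := by rw [hβ, sw H hl hx]
  have b2 : β = k (k y l) x := by rw [b1]; exact P1 H hx hy hl hxy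
  have b3 : β = k x (k l y) := by
    rw [b2, sw H hy hl]
    exact sw H ily hx
  have βy : Commute β y := kr ilx hy iβ
  have βx : Commute β x := by
    have h1 : k (k y l) x * k (k y l) x = 1 := H _ _ (H _ _ hy hl) hx
    rw [b2]
    exact kr (H _ _ hy hl) hx h1
  have base : Commute z β ∧ Commute z (cj β m) := by
    by_cases hmx : x = m
    · subst hmx
      have zy : Commute z y := hzy hne.symm
      have h1 : Commute z β := by
        rw [b2]
        exact (P4 H hy hl hx hz hxy.symm hzl.symm zy.symm).symm
      exact ⟨h1, by rw [cj_of_comm βx]; exact h1⟩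
    by_cases hmy : y = m
    · subst hmy
      have zx : Commute z x := hzx hne
      have h1 : Commute z β := by
        rw [b1]
        exact (P4 H hx hl hy hz hxy hzl.symm zx.symm).symm
      exact ⟨h1, by rw [cj_of_comm βy]; exact h1⟩
    · have zx : Commute z x := hzx hmx
      have zy : Commute z y := hzy hmy
      have h1 : Commute z β := co_k (co_k hzl zx) zy
      have h2 : Commute (k (k x (k l y)) m) z :=
        P4 H hx ily im hz hxm (co_k hzl zy).symm zx.symm
      rw [← b3] at h2
      refine ⟨h1, ?_⟩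
      rw [cj_k_mul H iβ im]
      exact h1.mul_right h2.symm
  have step : ∀ g y, y ∈ N → (Commute z (cj β g) ∧ Commute z (cj β (g * m))) →
      (Commute z (cj β (g * y)) ∧ Commute z (cj β (g * y * m))) := by
    rintro g m' hm' ⟨h1, h2⟩
    by_cases hne : m' = m
    · subst hne
      refine ⟨h2, ?_⟩
      rw [mul_assoc, im, mul_one]
      exact h1
    · have zm' := hzN m' hm' hne
      refine ⟨?_, ?_⟩
      · have := comm_cj h1 m'
        rwa [cj_of_comm zm', cj_cj] at this
      · have := comm_cj h2 m'
        rw [cj_of_comm zm', cj_cj] at this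
        rw [mul_assoc, (hmN m' hm').eq, ← mul_assoc]
        exact this
  have key : ∀ g ∈ Subgroup.closure N, Commute z (cj β g) ∧ Commute z (cj β (g * m)) := by
    intro g hg
    induction hg using Subgroup.closure_induction_right with
    | one => rw [cj_one, one_mul]; exact base
    | mul_right x _ y hy ih => exact step x y hy ih
    | mul_inv_cancel x _ y hy ih =>
      rw [iinv (hN y hy)]
      exact step x y hy ih
  intro g hg
  exact (key g hg).1

/-- `z` commutes with `[l, x] ^ g` -/
theorem Nn {B : Set G} {a c l x z : G} (hB : ∀ b ∈ B, b * b = 1)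
    (ha : a * a = 1) (hc : c * c = 1) (hl : l * l = 1) (hx : x * x = 1) (hz : z * z = 1)
    (hBa : ∀ b ∈ B, Commute b a) (hBc : ∀ b ∈ B, Commute b c)
    (hzl : Commute z l) (hzx : Commute z x) (hzB : ∀ b ∈ B, Commute z b) (hzc : Commute z c)
    (hax : Commute a x) (hcx : Commute c x) :
    ∀ g ∈ Subgroup.closure (B ∪ {a, c}), Commute z (cj (k l x) g) := by
  intro g hg
  have iac : a * c * (a * c) * (a * c * (a * c)) = 1 := H a c ha hc
  have kx : Commute (a * c * (a * c)) x := (hax.mul_left hcx).mul_left (hax.mul_left hcx)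
  have cj1 : ∀ w : G, Commute z (cj (k l x) w) → Commute z (cj (k l x) (w * c)) := by
    intro w hw
    have := comm_cj hw c
    rwa [cj_of_comm hzc, cj_cj] at this
  have w1 : Commute z (cj (k l x) 1) := by rw [cj_one]; exact co_k hzl hzx
  have wa : Commute z (cj (k l x) a) := P5 H hz ha hl hx hzl hax hzx
  have wc : Commute z (cj (k l x) c) := by
    have := cj1 1 w1
    rwa [one_mul] at this
  have wca : Commute z (cj (k l x) (c * a)) := by
    have e : cj (k l x) (c * a) = cj (k (cj l c) x) a := by
      rw [← cj_cj, cj_k, cj_of_comm hcx.symm]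
    rw [e]
    refine P5 H hz ha (cj_sq hl c) hx ?_ hax hzx
    have := comm_cj hzl c
    rwa [cj_of_comm hzc] at this
  have wk : Commute z (cj (k l x) (a * c * (a * c))) := P5 H hz iac hl hx hzl kx hzx
  have waca : Commute z (cj (k l x) (a * c * a)) := by
    have h1 := cj1 _ wk
    have e : a * c * (a * c) * c = a * c * a := by
      rw [mul_assoc, mul_assoc a c c, hc, mul_one]
    rwa [e] at h1
  obtain ⟨β, hβ, hw⟩ := class8 H hB ha hc hBa hBc hg
  have hzβ : Commute z β := (clo_comm (fun b hb => (hzB b hb).symm) β hβ).symm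
  have fin : ∀ w : G, Commute z (cj (k l x) w) → Commute z (cj (k l x) (w * β)) := by
    intro w hw
    have := comm_cj hw β
    rwa [cj_of_comm hzβ, cj_cj] at this
  rcases hw with rfl | rfl | rfl | rfl | rfl | rfl | rfl | rfl
  · have := fin 1 w1
    rwa [one_mul] at this
  · exact fin _ wa
  · exact fin _ wc
  · exact fin _ (cj1 _ wa)
  · exact fin _ wca
  · exact fin _ waca
  · exact fin _ (cj1 _ wca)
  · exact fin _ wk

theorem kk_eq {a l c : G} (ha : a * a = 1) (hl : l * l = 1) (hc : c * c = 1) :
    k (k a l) (k a c) = k (cj a l) (cj a c) := by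
  have ic := H _ _ ha hc
  have h1 : Commute a (k a c) := (kl ha hc ic).symm
  have il := cj_sq ha l
  have h2 : Commute a (cj a l) := F1 H ha hl
  have i2 : a * cj a l * (a * cj a l) = 1 := sq_mul ha il h2
  rw [k_eq hl, sw H i2 ic, k_cut ha h1.symm h2, sw H ic il, k_eq hc,
    k_cut ha h2.symm (F1 H ha hc)]

end lem

end Pool.Agent.H381.P4
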