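import Pool.Agent.H381.P4.F

/-!
# Noncommuting graphs without four-cycles and with disjoint triangles
-/

set_option autoImplicit false

namespace Pool.Agent.H381.P4

open Pool.Agent.H678.Inv
open Pool.Agent.W5h59.Bu (LFn LF2 rad rad_lf rad_quot le_rad lf_of_comm)

universe u

variable {G : Type u} [Group G]

theorem CM.mul_right {x y z : G} (h1 : CM x y) (h2 : CM x z) : CM x (y * z) := by
  unfold CM at *
  rw [map_mul]
  exact Commute.mul_right h1 h2

theorem CM.inv_right {x y : G} (h1 : CM x y) : CM x y⁻¹ := by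
  unfold CM at *
  rw [map_inv]
  exact Commute.inv_right h1

theorem ind2 {N : Set G} {m x : G} (R : G → Prop) (hN : ∀ b ∈ N, b * b = 1) (hm : m * m = 1)
    (hmN : ∀ b ∈ N, Commute b m) (hR : ∀ t, ∀ b ∈ N, b ≠ m → R t → R (cj t b))
    (b1 : R x) (b2 : R (cj x m)) : ∀ g ∈ Subgroup.closure N, R (cj x g) ∧ R (cj x (g * m)) := by
  have step : ∀ g y, y ∈ N → (R (cj x g) ∧ R (cj x (g * m))) →
      (R (cj x (g * y)) ∧ R (cj x (g * y * m))) := by
    rintro g m' hm' ⟨h1, h2⟩
    by_cases hne : m' = m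
    · subst hne
      refine ⟨h2, ?_⟩
      rw [mul_assoc, hm, mul_one]
      exact h1
    · refine ⟨?_, ?_⟩
      · have := hR _ m' hm' hne h1
        rwa [cj_cj] at this
      · have := hR _ m' hm' hne h2
        rw [cj_cj] at this
        rw [mul_assoc, (hmN m' hm').eq, ← mul_assoc]
        exact this
  intro g hg
  induction hg using Subgroup.closure_induction_right with
  | one => rw [cj_one, one_mul]; exact ⟨b1, b2⟩
  | mul_right x _ y hy ih => exact step x y hy ih
  | mul_inv_cancel x _ y hy ih =>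
    rw [iinv (hN y hy)]
    exact step x y hy ih

/-- the neighbours of a vertex -/
structure Dat (S : Set G) (l a c : G) (B : Set G) : Prop where
  ia : a * a = 1
  ic : c * c = 1
  hB : ∀ b ∈ B, b ∈ S ∧ ¬ Commute b l
  hBB : ∀ b ∈ B, ∀ b' ∈ B, Commute b b'
  hBa : ∀ b ∈ B, Commute b a
  hBc : ∀ b ∈ B, Commute b c
  cov : ∀ x ∈ S, ¬ Commute x l → x ∈ B ∨ x = a ∨ x = c
  alt : (a = 1 ∧ c = 1) ∨ (a ∈ S ∧ c ∈ S ∧ ¬ Commute a l ∧ ¬ Commute c l ∧ ¬ Commute a c)

theorem Dat.swap {S : Set G} {l a c : G} {B : Set G} (D : Dat S l a c B) : Dat S l c a B where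
  ia := D.ic
  ic := D.ia
  hB := D.hB
  hBB := D.hBB
  hBa := D.hBc
  hBc := D.hBa
  cov := fun x hx h => by
    rcases D.cov x hx h with h | h | h
    · exact Or.inl h
    · exact Or.inr (Or.inr h)
    · exact Or.inr (Or.inl h)
  alt := by
    rcases D.alt with ⟨h1, h2⟩ | ⟨h1, h2, h3, h4, h5⟩
    · exact Or.inl ⟨h2, h1⟩
    · exact Or.inr ⟨h2, h1, h4, h3, fun h => h5 h.symm⟩

section graph

variable (H : E2 G) {S : Set G} (hS : ∀ s ∈ S, s * s = 1)
  (quad : ∀ w ∈ S, ∀ x ∈ S, ∀ y ∈ S, ∀ z ∈ S, w ≠ y → x ≠ z →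
    Commute w x ∨ Commute x y ∨ Commute y z ∨ Commute z w)
  (tri : ∀ l ∈ S, ∀ a ∈ S, ∀ c ∈ S, ∀ a' ∈ S, ∀ c' ∈ S, ¬ Commute a l → ¬ Commute c l →
    ¬ Commute a c → ¬ Commute a' l → ¬ Commute c' l → ¬ Commute a' c' → a' = a ∨ a' = c)
  (hgen : Subgroup.closure S = ⊤)

include hS tri in
theorem exists_dat {l : G} (hl : l ∈ S) : ∃ a c B, Dat S l a c B := by
  by_cases h : ∃ a ∈ S, ∃ c ∈ S, ¬ Commute a l ∧ ¬ Commute c l ∧ ¬ Commute a c
  · obtain ⟨a, ha, c, hc, h1, h2, h3⟩ := h
    have key : ∀ b ∈ S, ¬ Commute b l → b ≠ a → b ≠ c → ∀ y ∈ S, ¬ Commute y l → Commute b y := by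
      intro b hb hbl hba hbc y hy hyl
      by_contra hby
      rcases tri l hl a ha c hc b hb y hy h1 h2 h3 hbl hyl hby with h | h
      · exact hba h
      · exact hbc h
    refine ⟨a, c, {x | x ∈ S ∧ ¬ Commute x l ∧ x ≠ a ∧ x ≠ c}, hS a ha, hS c hc, ?_, ?_, ?_, ?_,
      ?_, Or.inr ⟨ha, hc, h1, h2, h3⟩⟩
    · exact fun b hb => ⟨hb.1, hb.2.1⟩
    · exact fun b hb b' hb' => key b hb.1 hb.2.1 hb.2.2.1 hb.2.2.2 b' hb'.1 hb'.2.1
    · exact fun b hb => key b hb.1 hb.2.1 hb.2.2.1 hb.2.2.2 a ha h1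
    · exact fun b hb => key b hb.1 hb.2.1 hb.2.2.1 hb.2.2.2 c hc h2
    · intro x hx hxl
      by_cases e1 : x = a
      · exact Or.inr (Or.inl e1)
      by_cases e2 : x = c
      · exact Or.inr (Or.inr e2)
      exact Or.inl ⟨hx, hxl, e1, e2⟩
  · push Not at h
    refine ⟨1, 1, {x | x ∈ S ∧ ¬ Commute x l}, one_mul 1, one_mul 1, fun b hb => hb, ?_,
      fun b _ => Commute.one_right b, fun b _ => Commute.one_right b,
      fun x hx hxl => Or.inl ⟨hx, hxl⟩, Or.inl ⟨rfl, rfl⟩⟩
    exact fun b hb b' hb' => h b hb.1 b' hb'.1 hb.2 hb'.2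

variable {l a c : G} {B : Set G} (D : Dat S l a c B)

include hS D in
theorem Dsq : ∀ b ∈ B, b * b = 1 := fun b hb => hS b (D.hB b hb).1

include quad D in
/-- a vertex which is not adjacent to `l` is adjacent to at most one neighbour of `l` -/
theorem Dac {s : G} (hl : l ∈ S) (hs : s ∈ S) (hls : l ≠ s) : Commute s a ∨ Commute s c := by
  rcases D.alt with ⟨h1, _⟩ | ⟨h1, h2, h3, h4, h5⟩
  · left; rw [h1]; exact Commute.one_right s
  · by_contra hcon
    push Not at hcon
    have hne : a ≠ c := fun h => h5 (by rw [h])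
    rcases quad l hl a h1 s hs c h2 hls hne with h | h | h | h
    · exact h3 h.symm
    · exact hcon.1 h.symm
    · exact hcon.2 h
    · exact h4 h

include quad D in
theorem Dm {s m : G} (hl : l ∈ S) (hs : s ∈ S) (hls : l ≠ s) (hm : m ∈ B) (hsm : ¬ Commute s m) :
    Commute s a ∧ Commute s c ∧ ∀ b ∈ B, b ≠ m → Commute s b := by
  have hm' := D.hB m hm
  have key : ∀ x ∈ S, ¬ Commute x l → x ≠ m → Commute s x := by
    intro x hx hxl hne
    exact nb_other quad hl hs hls ⟨hm'.1, hm'.2⟩ ⟨hx, hxl⟩ hsm hne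
  refine ⟨?_, ?_, fun b hb hne => key b (D.hB b hb).1 (D.hB b hb).2 hne⟩
  · rcases D.alt with ⟨h1, _⟩ | ⟨h1, h2, h3, h4, h5⟩
    · rw [h1]; exact Commute.one_right s
    · refine key a h1 h3 ?_
      intro h
      exact h5 (by rw [h]; exact D.hBc m hm)
  · rcases D.alt with ⟨_, h1⟩ | ⟨h1, h2, h3, h4, h5⟩
    · rw [h1]; exact Commute.one_right s
    · refine key c h2 h4 ?_
      intro h
      exact h5 (by rw [h]; exact (D.hBa m hm).symm)

include H hS quad hgen D in
theorem y_rad (hl : l ∈ S) {β : G} (hβ : β ∈ Subgroup.closure B) :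
    k (cj l a) (cj l (c * β)) ∈ rad G := by
  have il := hS l hl
  have hB := Dsq hS D
  have ha := D.ia
  have hc := D.ic
  have sB := clo_sq hB D.hBB
  have cB := clo_comm2 D.hBB
  have cBa := clo_comm D.hBa
  have cBc := clo_comm D.hBc
  have icβ : c * β * (c * β) = 1 := sq_mul hc (sB β hβ) (cBc β hβ).symm
  have iaβ : a * β * (a * β) = 1 := sq_mul ha (sB β hβ) (cBa β hβ).symm
  obtain ⟨z1, z2, z3, z4, z5⟩ := Z H il ha icβ
  obtain ⟨w1, w2, w3, w4, w5⟩ := Z H il iaβ hc
  have e1 : a * β * c = a * (c * β) := by rw [mul_assoc, (cBc β hβ).eq]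
  set y := k (cj l a) (cj l (c * β)) with hy
  have e2 : k (cj l (a * β)) (cj l c) = y := by rw [← w4, e1, z4]
  have yc : Commute y c := by rw [← e2]; exact w2
  have ya : Commute y a := z1
  have iy : y * y = 1 := H _ _ (cj_sq il _) (cj_sq il _)
  have yl : ∀ β' ∈ Subgroup.closure B, Commute l (cj y β') := by
    intro β' hβ'
    have h1 : Commute y (cj l β') := by
      refine (co_k (FF H il ?_) (FF H il ?_)).symm
      · rw [iinv (sB β' hβ')]
        exact sq_mul ha (sB β' hβ') (cBa β' hβ').symm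
      · rw [iinv (sB β' hβ')]
        exact sq_mul icβ (sB β' hβ') ((cBc β' hβ').symm.mul_left (cB β hβ β' hβ'))
    have h2 := comm_cj h1 β'
    rw [cj_cj, sB β' hβ', cj_one] at h2
    exact h2.symm
  have ys : ∀ s ∈ S, l ≠ s → Commute s l → ∀ β' ∈ Subgroup.closure B, Commute s (cj y β') := by
    intro s hs hls hsl
    have is := hS s hs
    by_cases hall : ∀ b ∈ B, Commute s b
    · intro β' hβ'
      have hsB : ∀ g ∈ Subgroup.closure B, Commute s g :=
        fun g hg => (clo_comm (fun b hb => (hall b hb).symm) g hg).symm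
      have hsy : Commute s y := by
        rcases Dac quad D hl hs hls with h | h
        · rw [hy, sw H (cj_sq il _) (cj_sq il _)]
          exact Zt H il icβ ha is hsl h
        · exact Zt H il ha icβ is hsl (h.mul_right (hsB β hβ))
      have := comm_cj hsy β'
      rwa [cj_of_comm (hsB β' hβ')] at this
    · push Not at hall
      obtain ⟨m, hm, hsm⟩ := hall
      obtain ⟨sa, sc, sb⟩ := Dm quad D hl hs hls hm hsm
      have im := hB m hm
      have hsy : Commute s y := by
        rw [hy, sw H (cj_sq il _) (cj_sq il _)]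
        exact Zt H il icβ ha is hsl sa
      obtain ⟨t1, t2, t3, t4, t5⟩ := B1 H is il im hsl
      set θ := k s (cj l m) with hθ
      have iθ : θ * θ = 1 := H _ _ is (cj_sq il m)
      have θx : ∀ x : G, x * x = 1 → Commute s x → Commute m x → Commute θ x := by
        intro x hx h1 h2
        rw [t5]
        exact P4 H is im il hx hsl h2 h1
      have θa : Commute θ a := θx a ha sa (D.hBa m hm)
      have θc : Commute θ c := θx c hc sc (D.hBc m hm)
      have θB : ∀ b ∈ B, Commute θ b := by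
        intro b hb
        by_cases hne : b = m
        · rw [hne]; exact t2
        · exact θx b (hB b hb) (sb b hb hne) (D.hBB m hm b hb)
      have θclo : ∀ g ∈ Subgroup.closure B, Commute θ g :=
        fun g hg => (clo_comm (fun b hb => (θB b hb).symm) g hg).symm
      set R : G → Prop := fun t => ∃ ε, (ε = 1 ∨ ε = θ) ∧ cj t s = t * ε with hR
      have hRc : ∀ t x : G, Commute s x → Commute θ x → R t → R (cj t x) := by
        rintro t x h1 h2 ⟨ε, hε, h3⟩
        refine ⟨ε, hε, ?_⟩
        have h4 : cj (cj t x) s = cj (cj t s) x := by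
          rw [cj_cj, cj_cj, h1.eq]
        have h5 : cj ε x = ε := by
          rcases hε with rfl | rfl
          · exact one_cj x
          · exact cj_of_comm h2
        rw [h4, h3, cj_mul, h5]
      have R1 : R l := ⟨1, Or.inl rfl, by rw [cj_of_comm hsl.symm, mul_one]⟩
      have Rm : R (cj l m) := by
        refine ⟨θ, Or.inr rfl, ?_⟩
        rw [cj_k_mul H (cj_sq il m) is, sw H (cj_sq il m) is]
      have RB := ind2 (N := B) (m := m) (x := l) R hB im (fun b hb => D.hBB b hb m hm)
        (fun t b hb hne ht => hRc t b (sb b hb hne) (θB b hb) ht) R1 Rm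
      have RU : R (cj l (m * a)) := by
        rw [← cj_cj]
        exact hRc _ a sa θa Rm
      have RV : R (cj l (β * m * c)) := by
        rw [← cj_cj]
        exact hRc _ c sc θc (RB β hβ).2
      have eU : cj (cj l a) m = cj l (m * a) := by rw [cj_cj, (D.hBa m hm).eq]
      have eV : cj (cj l (c * β)) m = cj l (β * m * c) := by
        rw [cj_cj, mul_assoc, ← (cBc (β * m) (mul_mem hβ (Subgroup.subset_closure hm))).eq]
      have lθ : ∀ g : G, Commute θ g → Commute θ (cj l g) := by
        intro g hg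
        have := comm_cj t4 g
        rwa [cj_of_comm hg] at this
      have θU : Commute θ (cj l (m * a)) := lθ _ ((θB m hm).mul_right θa)
      have θV : Commute θ (cj l (β * m * c)) :=
        lθ _ (((θclo β hβ).mul_right (θB m hm)).mul_right θc)
      have hsym : Commute s (cj y m) := by
        apply Commute.symm
        apply comm_of_cj
        rw [hy, cj_k, eU, eV, cj_k]
        obtain ⟨ε1, h1, h2⟩ := RU
        obtain ⟨ε2, h3, h4⟩ := RV
        rw [h2, h4]
        set U := cj l (m * a) with hU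
        set V := cj l (β * m * c) with hV
        have f1 : ∀ ε, (ε = 1 ∨ ε = θ) → ε * ε = 1 ∧ Commute ε U ∧ Commute ε V ∧ Commute ε θ := by
          rintro ε (rfl | rfl)
          · exact ⟨one_mul 1, Commute.one_left _, Commute.one_left _, Commute.one_left _⟩
          · exact ⟨iθ, θU, θV, Commute.refl _⟩
        obtain ⟨g1, g2, g3, g4⟩ := f1 ε1 h1
        obtain ⟨g5, g6, g7, g8⟩ := f1 ε2 h3
        have g9 : Commute ε1 ε2 := by
          rcases h3 with h | h
          · rw [h]; exact Commute.one_right _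
          · rw [h]; exact g4
        have g10 : U * ε1 * (V * ε2) = U * V * (ε1 * ε2) := by
          rw [mul_assoc, ← mul_assoc ε1 V, g3.eq]
          simp only [mul_assoc]
        have g11 : ε1 * ε2 * (ε1 * ε2) = 1 := sq_mul g1 g5 g9
        have g12 : Commute (ε1 * ε2) (U * V) := (g2.mul_right g3).mul_left (g6.mul_right g7)
        unfold k
        rw [g10]
        calc U * V * (ε1 * ε2) * (U * V * (ε1 * ε2))
            = U * V * (ε1 * ε2 * (U * V)) * (ε1 * ε2) := by simp only [mul_assoc]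
          _ = U * V * (U * V * (ε1 * ε2)) * (ε1 * ε2) := by rw [g12.eq]
          _ = U * V * (U * V) * (ε1 * ε2 * (ε1 * ε2)) := by simp only [mul_assoc]
          _ = U * V * (U * V) := by rw [g11, mul_one]
      have fin := ind2 (N := B) (m := m) (x := y) (fun t => Commute s t) hB im
        (fun b hb => D.hBB b hb m hm) (by
          intro t b hb hne ht
          have := comm_cj ht b
          rwa [cj_of_comm (sb b hb hne)] at this) hsy hsym
      intro β' hβ'
      exact (fin β' hβ').1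
  refine mainL (y := l) (T := {t | ∃ β' ∈ Subgroup.closure B, t = cj y β'}) iy
    ⟨1, one_mem _, (cj_one y).symm⟩ hgen hS ?_ ?_ ?_
  · intro s hs
    by_cases hsl : Commute s l
    · right
      rintro _ ⟨β', hβ', rfl⟩
      by_cases hne : l = s
      · rw [← hne]; exact CM.of (yl β' hβ')
      · exact CM.of (ys s hs hne hsl β' hβ')
    · rcases D.cov s hs hsl with h | h | h
      · left
        rintro _ ⟨β', hβ', rfl⟩
        exact ⟨β' * s, mul_mem hβ' (Subgroup.subset_closure h), cj_cj _ _ _⟩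
      · right
        rintro _ ⟨β', hβ', rfl⟩
        rw [h]
        have := comm_cj ya β'
        rw [cj_of_comm (cBa β' hβ').symm] at this
        exact CM.of this.symm
      · right
        rintro _ ⟨β', hβ', rfl⟩
        rw [h]
        have := comm_cj yc β'
        rw [cj_of_comm (cBc β' hβ').symm] at this
        exact CM.of this.symm
  · rintro _ ⟨β', hβ', rfl⟩
    exact CM.of (yl β' hβ')
  · exact k_mem_nc (cj_mem_nc _ _) (cj_mem_nc _ _)

include H hS quad hgen D in
theorem dd (hl : l ∈ S) {h : G} (hh : h ∈ Subgroup.closure (B ∪ {a, c})) : CM l (cj l h) := by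
  have il := hS l hl
  have hB := Dsq hS D
  have ha := D.ia
  have hc := D.ic
  rcases path_class H hB D.hBB ha hc il D.hBa D.hBc hh with ⟨β, hβ, h1⟩ | i
  · have icβ : c * β * (c * β) = 1 :=
      sq_mul hc (clo_sq hB D.hBB β hβ) (clo_comm D.hBc β hβ).symm
    obtain ⟨z1, z2, z3, z4, z5⟩ := Z H il ha icβ
    have h2 := y_rad H hS quad hgen D hl hβ
    apply CM.of_k il (cj_sq il _)
    rcases h1 with rfl | rfl
    · rw [z4]; exact h2
    · rw [z5]; exact h2
  · exact CM.of (F1 H il i)

include H hS quad hgen D in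
theorem dd2 (hl : l ∈ S) {g h : G} (hg : g ∈ Subgroup.closure (B ∪ {a, c}))
    (hh : h ∈ Subgroup.closure (B ∪ {a, c})) : CM (cj l g) (cj l h) := by
  have h1 := (dd H hS quad hgen D hl (mul_mem hh (inv_mem hg))).conj g
  rwa [cj_cj, inv_mul_cancel_right] at h1

include H hS quad hgen D in
theorem lT (hl : l ∈ S) {x y g : G} (hx : x ∈ Subgroup.closure (B ∪ {a, c}))
    (hy : y ∈ Subgroup.closure (B ∪ {a, c})) (ix : x * x = 1) (iy : y * y = 1)
    (hg : g ∈ Subgroup.closure (B ∪ {a, c})) : CM l (cj (k (k l x) y) g) := by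
  have e : k (k l x) y = l * cj l x * (cj l y * cj l (x * y)) := by
    rw [k_eq iy, k_eq ix, cj_mul, cj_cj]
  have c : ∀ h ∈ Subgroup.closure (B ∪ {a, c}), CM l (cj l h) :=
    fun h hh => dd H hS quad hgen D hl hh
  rw [e, cj_mul, cj_mul, cj_mul, cj_cj, cj_cj, cj_cj]
  exact ((c _ hg).mul_right (c _ (mul_mem hx hg))).mul_right
    ((c _ (mul_mem hy hg)).mul_right (c _ (mul_mem (mul_mem hx hy) hg)))

theorem nc3 {l x y : G} (ix : x * x = 1) (iy : y * y = 1) :
    k (k l x) y ∈ Subgroup.normalClosure {l} := by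
  have e : k (k l x) y = cj l 1 * cj l x * (cj l y * cj l (x * y)) := by
    rw [k_eq iy, k_eq ix, cj_mul, cj_cj, cj_one]
  rw [e]
  exact mul_mem (mul_mem (cj_mem_nc _ _) (cj_mem_nc _ _))
    (mul_mem (cj_mem_nc _ _) (cj_mem_nc _ _))

end graph

end Pool.Agent.H381.P4
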