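import Pool.Agent.H381.P4.G

/-!
# Noncommuting graphs without four-cycles and with disjoint triangles: star elements
-/

set_option autoImplicit false

namespace Pool.Agent.H381.P4

open Pool.Agent.H678.Inv
open Pool.Agent.W5h59.Bu (LFn LF2 rad rad_lf rad_quot le_rad lf_of_comm)

universe u

variable {G : Type u} [Group G]

theorem a_beta (H : E2 G) {a l c y : G} (ha : a * a = 1) (hl : l * l = 1) (hc : c * c = 1)
    (hy : y * y = 1) (hya : Commute y a) (hyc : Commute y c) :
    Commute a (cj (k (k l a) y) c) := by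
  obtain ⟨z1, z2, z3, z4, z5⟩ := Z H ha hl hc
  set ξ := k (cj a l) (cj a c) with hξ
  have iξ : ξ * ξ = 1 := H _ _ (cj_sq ha _) (cj_sq ha _)
  have yξ : Commute y ξ := Zt H ha hl hc hy hya hyc
  have iL : k l a * k l a = 1 := H _ _ hl ha
  have iac := cj_sq ha c
  have ial := cj_sq ha l
  have e1 : k (k l a) (cj a c) = ξ := by
    have h2 : Commute a (cj a l) := F1 H ha hl
    have i2 : a * cj a l * (a * cj a l) = 1 := sq_mul ha ial h2
    rw [sw H hl ha, k_eq hl, sw H i2 iac, k_cut ha (F1 H ha hc).symm h2, sw H iac ial]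
  have ξL : Commute ξ (k l a) := co_k z1 z3
  have ξLy : Commute ξ (cj (k l a) y) := by
    have := comm_cj ξL y
    rwa [cj_of_comm yξ.symm] at this
  have e2 : k (cj (k l a) y) (cj a c) = ξ := by
    have h1 : cj (cj a c) y = cj a c := by
      rw [cj_cj, ← hyc.eq, ← cj_cj, cj_of_comm hya.symm]
    rw [← h1, ← cj_k, e1, cj_of_comm yξ.symm]
  have iβ : k (k l a) y * k (k l a) y = 1 := H _ _ iL hy
  have e3 : k (k (k l a) y) (cj a c) = 1 := by
    have h1 : k (k l a) y = k l a * cj (k l a) y := k_eq hy
    rw [h1, k_mul_left iL (cj_sq iL y) iac (F1 H iL hy), e1, e2]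
    rw [← ξLy.eq, mul_assoc ξ, cj_sq iL y, mul_one, iξ]
  have h1 : Commute (k (k l a) y) (cj a c) := co_one iβ iac e3
  have h2 := comm_cj h1 c
  rw [cj_cj, hc, cj_one] at h2
  exact h2.symm

theorem a_rho (H : E2 G) {a l c y : G} (ha : a * a = 1) (hl : l * l = 1) (hc : c * c = 1)
    (hy : y * y = 1) (hya : Commute y a) (hyc : Commute y c) :
    Commute a (k (k l (k a c)) y) := by
  have ir : k a c * k a c = 1 := H _ _ ha hc
  have ra : Commute (k a c) a := kl ha hc ir
  have iw : k l (k a c) * k l (k a c) = 1 := H _ _ hl ir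
  have yξ : Commute y (k (cj a l) (cj a c)) := Zt H ha hl hc hy hya hyc
  have e1 : k (k l (k a c)) a = k (cj a l) (cj a c) := by
    have h1 : k (k (k a c) l) a = k (k a l) (k a c) := P1 H ir ha hl ra
    rw [sw H hl ir, h1, kk_eq H ha hl hc]
  have e2 : k (k y (k l (k a c))) a = k (k a (k l (k a c))) y := P1 H hy ha iw hya
  have e3 : k (k a (k l (k a c))) y = 1 := by
    rw [sw H ha iw, e1]
    exact k_one (H _ _ (cj_sq ha _) (cj_sq ha _)) hy yξ.symm
  rw [e3] at e2
  have h1 := co_one (H _ _ hy iw) ha e2
  rw [sw H hy iw] at h1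
  exact h1.symm

section graph

variable (H : E2 G) {S : Set G} (hS : ∀ s ∈ S, s * s = 1)
  (quad : ∀ w ∈ S, ∀ x ∈ S, ∀ y ∈ S, ∀ z ∈ S, w ≠ y → x ≠ z →
    Commute w x ∨ Commute x y ∨ Commute y z ∨ Commute z w)
  (hgen : Subgroup.closure S = ⊤)
  {l a c : G} {B : Set G} (D : Dat S l a c B)

theorem sub1 {B : Set G} {a c : G} : Subgroup.closure B ≤ Subgroup.closure (B ∪ {a, c}) :=
  Subgroup.closure_mono Set.subset_union_left

theorem sub2 {B : Set G} {a c : G} :
    Subgroup.closure (B ∪ {c}) ≤ Subgroup.closure (B ∪ {a, c}) :=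
  Subgroup.closure_mono (Set.union_subset_union_right _ (by
    rintro x hx
    rw [Set.mem_singleton_iff] at hx
    rw [hx]; exact Or.inr rfl))

include hS D in
theorem sq3 : ∀ b ∈ B ∪ {a, c}, b * b = 1 := by
  rintro b (hb | hb | hb)
  · exact Dsq hS D b hb
  · rw [hb]; exact D.ia
  · rw [Set.mem_singleton_iff] at hb
    rw [hb]; exact D.ic

include hS D in
theorem sq2 : ∀ b ∈ B ∪ {c}, b * b = 1 := by
  rintro b (hb | hb)
  · exact Dsq hS D b hb
  · rw [Set.mem_singleton_iff] at hb
    rw [hb]; exact D.ic

include D in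
theorem co3 {m : G} (hm : m ∈ B) : ∀ b ∈ B ∪ {a, c}, Commute b m := by
  rintro b (hb | hb | hb)
  · exact D.hBB b hb m hm
  · rw [hb]; exact (D.hBa m hm).symm
  · rw [Set.mem_singleton_iff] at hb
    rw [hb]; exact (D.hBc m hm).symm

include D in
theorem co2 {m : G} (hm : m ∈ B) : ∀ b ∈ B ∪ {c}, Commute b m := by
  rintro b (hb | hb)
  · exact D.hBB b hb m hm
  · rw [Set.mem_singleton_iff] at hb
    rw [hb]; exact (D.hBc m hm).symm

include H hS quad hgen D

/-- both leaves are not on the triangle -/
theorem starA (hl : l ∈ S) {x y : G} (hx : x ∈ B) (hy : y ∈ B) (hxy : x ≠ y) :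
    k (k l x) y ∈ rad G := by
  have il := hS l hl
  have hB := Dsq hS D
  have ix := hB x hx
  have iy := hB y hy
  have ha := D.ia
  have hc := D.ic
  have mx : x ∈ Subgroup.closure (B ∪ {a, c}) := sub1 (Subgroup.subset_closure hx)
  have my : y ∈ Subgroup.closure (B ∪ {a, c}) := sub1 (Subgroup.subset_closure hy)
  refine mainL (y := l)
    (T := {t | ∃ g ∈ Subgroup.closure (B ∪ {a, c}), t = cj (k (k l x) y) g})
    (H _ _ (H _ _ il ix) iy) ⟨1, one_mem _, (cj_one _).symm⟩ hgen hS ?_ ?_ (nc3 ix iy)
  · intro s hs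
    have is := hS s hs
    by_cases hsl : Commute s l
    · right
      rintro _ ⟨g, hg, rfl⟩
      by_cases hne : l = s
      · rw [← hne]
        exact lT H hS quad hgen D hl mx my ix iy hg
      apply CM.of
      by_cases hall : ∀ b ∈ B, Commute s b
      · have hyg : Commute g y := clo_comm (co3 D hy) g hg
        have h1 : Commute s (cj (k l x) g) := by
          rcases Dac quad D hl hs hne with h | h
          · have hg' : g ∈ Subgroup.closure (B ∪ {c, a}) := by
              rwa [Set.pair_comm c a]
            exact Nn H hB hc ha il ix is D.hBc D.hBa hsl (hall x hx) hall h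
              (D.hBc x hx).symm (D.hBa x hx).symm g hg'
          · exact Nn H hB ha hc il ix is D.hBa D.hBc hsl (hall x hx) hall h
              (D.hBa x hx).symm (D.hBc x hx).symm g hg
        rw [cj_k, cj_of_comm hyg.symm]
        exact co_k h1 (hall y hy)
      · push Not at hall
        obtain ⟨m, hm, hsm⟩ := hall
        obtain ⟨sa, sc, sb⟩ := Dm quad D hl hs hne hm hsm
        refine SC H (N := B ∪ {a, c}) (m := m) il ix iy is (sq3 hS D) (Or.inl hm) (co3 D hm) ?_
          hsl (D.hBB x hx y hy) hxy (D.hBB x hx m hm) (D.hBB y hy m hm) (fun h => sb x hx h)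
          (fun h => sb y hy h) g hg
        rintro b (hb | hb | hb) hbm
        · exact sb b hb hbm
        · rw [hb]; exact sa
        · rw [Set.mem_singleton_iff] at hb
          rw [hb]; exact sc
    · left
      rintro _ ⟨g, hg, rfl⟩
      refine ⟨g * s, mul_mem hg (Subgroup.subset_closure ?_), cj_cj _ _ _⟩
      rcases D.cov s hs hsl with h | h | h
      · exact Or.inl h
      · exact Or.inr (Or.inl h)
      · exact Or.inr (Or.inr h)
  · rintro _ ⟨g, hg, rfl⟩
    exact lT H hS quad hgen D hl mx my ix iy hg

/-- one leaf on the triangle -/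
theorem starB (hl : l ∈ S) (haS : a ∈ S) (hal : ¬ Commute a l) {y : G} (hy : y ∈ B) :
    k (k l a) y ∈ rad G := by
  have il := hS l hl
  have hB := Dsq hS D
  have iy := hB y hy
  have ha := D.ia
  have hc := D.ic
  have hya := D.hBa y hy
  have hyc := D.hBc y hy
  have iL : k l a * k l a = 1 := H _ _ il ha
  set β := k (k l a) y with hβ
  have iβ : β * β = 1 := H _ _ iL iy
  have ma : a ∈ Subgroup.closure (B ∪ {a, c}) := Subgroup.subset_closure (Or.inr (Or.inl rfl))
  have my : y ∈ Subgroup.closure (B ∪ {a, c}) := sub1 (Subgroup.subset_closure hy)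
  have b2 : β = k (k y l) a := by
    rw [hβ, sw H il ha]
    exact P1 H ha iy il hya.symm
  have βa : Commute β a := by
    have h1 : k (k y l) a * k (k y l) a = 1 := H _ _ (H _ _ iy il) ha
    rw [b2]
    exact kr (H _ _ iy il) ha h1
  have hac : ∀ g ∈ Subgroup.closure (B ∪ {c}), Commute a (cj β g) := by
    have h1 := ind2 (N := B ∪ {c}) (m := c) (x := β) (fun t => Commute a t) (sq2 hS D) hc
      (by
        rintro b (hb | hb)
        · exact D.hBc b hb
        · rw [Set.mem_singleton_iff] at hb
          rw [hb])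
      (by
        rintro t b (hb | hb) hbc ht
        · have := comm_cj ht b
          rwa [cj_of_comm (D.hBa b hb).symm] at this
        · exact absurd hb hbc)
      βa.symm (a_beta H ha il hc iy hya hyc)
    exact fun g hg => (h1 g hg).1
  have hz : ∀ s ∈ S, l ≠ s → Commute s l → ∀ g ∈ Subgroup.closure (B ∪ {c}),
      Commute s (cj β g) := by
    intro s hs hne hsl
    have is := hS s hs
    by_cases hall : ∀ b ∈ B, Commute s b
    · have h1 : Commute s β := by
        rw [b2]
        exact (P4 H iy il ha is hya hsl.symm (hall y hy).symm).symm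
      by_cases hsc : Commute s c
      · intro g hg
        have hsg : Commute g s := by
          refine clo_comm ?_ g hg
          rintro b (hb | hb)
          · exact (hall b hb).symm
          · rw [Set.mem_singleton_iff] at hb
            rw [hb]; exact hsc.symm
        have := comm_cj h1 g
        rwa [cj_of_comm hsg.symm] at this
      · have hsa : Commute s a := by
          rcases Dac quad D hl hs hne with h | h
          · exact h
          · exact absurd h hsc
        have h2 : Commute s (cj β c) := by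
          have h3 : Commute (k (k y (k l a)) c) s :=
            P4 H iy iL hc is hyc (co_k hsl hsa).symm (hall y hy).symm
          rw [sw H iy iL] at h3
          rw [cj_k_mul H iβ hc]
          exact h1.mul_right h3.symm
        have h3 := ind2 (N := B ∪ {c}) (m := c) (x := β) (fun t => Commute s t) (sq2 hS D) hc
          (by
            rintro b (hb | hb)
            · exact D.hBc b hb
            · rw [Set.mem_singleton_iff] at hb
              rw [hb])
          (by
            rintro t b (hb | hb) hbc ht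
            · have := comm_cj ht b
              rwa [cj_of_comm (hall b hb)] at this
            · exact absurd hb hbc)
          h1 h2
        exact fun g hg => (h3 g hg).1
    · push Not at hall
      obtain ⟨m, hm, hsm⟩ := hall
      obtain ⟨sa, sc, sb⟩ := Dm quad D hl hs hne hm hsm
      intro g hg
      refine SC H (N := B ∪ {c}) (m := m) il ha iy is (sq2 hS D) (Or.inl hm) (co2 D hm) ?_
        hsl hya.symm ?_ (D.hBa m hm).symm (D.hBB y hy m hm) (fun _ => sa)
        (fun h => sb y hy h) g hg
      · rintro b (hb | hb) hbm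
        · exact sb b hb hbm
        · rw [Set.mem_singleton_iff] at hb
          rw [hb]; exact sc
      · intro h
        rcases D.alt with ⟨h1, _⟩ | ⟨h1, h2, h3, h4, h5⟩
        · apply hal
          rw [h1]
          exact Commute.one_left l
        · exact h5 (by rw [h]; exact hyc)
  refine mainL (y := l)
    (T := {t | ∃ g ∈ Subgroup.closure (B ∪ {c}), t = cj β g})
    iβ ⟨1, one_mem _, (cj_one _).symm⟩ hgen hS ?_ ?_ (nc3 ha iy)
  · intro s hs
    by_cases hsl : Commute s l
    · right
      rintro _ ⟨g, hg, rfl⟩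
      by_cases hne : l = s
      · rw [← hne]
        exact lT H hS quad hgen D hl ma my ha iy (sub2 hg)
      · exact CM.of (hz s hs hne hsl g hg)
    · rcases D.cov s hs hsl with h | h | h
      · left
        rintro _ ⟨g, hg, rfl⟩
        exact ⟨g * s, mul_mem hg (Subgroup.subset_closure (Or.inl h)), cj_cj _ _ _⟩
      · right
        rintro _ ⟨g, hg, rfl⟩
        rw [h]
        exact CM.of (hac g hg)
      · left
        rintro _ ⟨g, hg, rfl⟩
        exact ⟨g * s, mul_mem hg (Subgroup.subset_closure (Or.inr h)), cj_cj _ _ _⟩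
  · rintro _ ⟨g, hg, rfl⟩
    exact lT H hS quad hgen D hl ma my ha iy (sub2 hg)

/-- a leaf `[a, c]` -/
theorem starC (hl : l ∈ S) {y : G} (hy : y ∈ B) (hyr : k a c ≠ y) :
    k (k l (k a c)) y ∈ rad G := by
  have il := hS l hl
  have hB := Dsq hS D
  have iy := hB y hy
  have ha := D.ia
  have hc := D.ic
  have hya := D.hBa y hy
  have hyc := D.hBc y hy
  have ir : k a c * k a c = 1 := H _ _ ha hc
  have iw : k l (k a c) * k l (k a c) = 1 := H _ _ il ir
  have hyρ : Commute y (k a c) := co_k hya hyc
  set β := k (k l (k a c)) y with hβ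
  have iβ : β * β = 1 := H _ _ iw iy
  have ma : a ∈ Subgroup.closure (B ∪ {a, c}) := Subgroup.subset_closure (Or.inr (Or.inl rfl))
  have mc : c ∈ Subgroup.closure (B ∪ {a, c}) := Subgroup.subset_closure (Or.inr (Or.inr rfl))
  have mr : k a c ∈ Subgroup.closure (B ∪ {a, c}) := mul_mem (mul_mem ma mc) (mul_mem ma mc)
  have my : y ∈ Subgroup.closure (B ∪ {a, c}) := sub1 (Subgroup.subset_closure hy)
  have βa : Commute a β := a_rho H ha il hc iy hya hyc
  have βc : Commute c β := by
    have := a_rho H hc il ha iy hyc hya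
    rwa [sw H hc ha] at this
  have toB : ∀ x : G, Commute x β → (∀ b ∈ B, Commute b x) → ∀ g ∈ Subgroup.closure B,
      Commute x (cj β g) := by
    intro x h1 h2 g hg
    have := comm_cj h1 g
    rwa [cj_of_comm (clo_comm h2 g hg).symm] at this
  have hz : ∀ s ∈ S, l ≠ s → Commute s l → ∀ g ∈ Subgroup.closure B, Commute s (cj β g) := by
    intro s hs hne hsl
    have is := hS s hs
    by_cases hall : ∀ b ∈ B, Commute s b
    · have h1 : Commute s β := by
        have h2 : Commute (k (k y l) (k a c)) s :=
          P4 H iy il ir is hyρ hsl.symm (hall y hy).symm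
        have h3 : k (k (k a c) l) y = k (k y l) (k a c) := P1 H ir iy il hyρ.symm
        rw [hβ, sw H il ir, h3]
        exact h2.symm
      exact toB s h1 (fun b hb => (hall b hb).symm)
    · push Not at hall
      obtain ⟨m, hm, hsm⟩ := hall
      obtain ⟨sa, sc, sb⟩ := Dm quad D hl hs hne hm hsm
      intro g hg
      exact SC H (N := B) (m := m) il ir iy is hB hm (fun b hb => D.hBB b hb m hm)
        (fun b hb h => sb b hb h) hsl hyρ.symm hyr
        (co_k (D.hBa m hm) (D.hBc m hm)).symm (D.hBB y hy m hm) (fun _ => co_k sa sc)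
        (fun h => sb y hy h) g hg
  refine mainL (y := l) (T := {t | ∃ g ∈ Subgroup.closure B, t = cj β g})
    iβ ⟨1, one_mem _, (cj_one _).symm⟩ hgen hS ?_ ?_ (nc3 ir iy)
  · intro s hs
    by_cases hsl : Commute s l
    · right
      rintro _ ⟨g, hg, rfl⟩
      by_cases hne : l = s
      · rw [← hne]
        exact lT H hS quad hgen D hl mr my ir iy (sub1 hg)
      · exact CM.of (hz s hs hne hsl g hg)
    · rcases D.cov s hs hsl with h | h | h
      · left
        rintro _ ⟨g, hg, rfl⟩
        exact ⟨g * s, mul_mem hg (Subgroup.subset_closure h), cj_cj _ _ _⟩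
      · right
        rintro _ ⟨g, hg, rfl⟩
        rw [h]
        exact CM.of (toB a βa D.hBa g hg)
      · right
        rintro _ ⟨g, hg, rfl⟩
        rw [h]
        exact CM.of (toB c βc D.hBc g hg)
  · rintro _ ⟨g, hg, rfl⟩
    exact lT H hS quad hgen D hl mr my ir iy (sub1 hg)

/-- all star elements -/
theorem star' (hl : l ∈ S) {x y : G} (hx : x ∈ S) (hy : y ∈ S) (hxl : ¬ Commute x l)
    (hyl : ¬ Commute y l) (hne : x ≠ y) (hxy : Commute x y) : k (k l x) y ∈ rad G := by
  have il := hS l hl
  have ix := hS x hx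
  have iy := hS y hy
  have flip : k (k l x) y = k (k l y) x := by
    rw [sw H il ix, P1 H ix iy il hxy, sw H iy il]
  rcases D.cov x hx hxl with h1 | h1 | h1 <;> rcases D.cov y hy hyl with h2 | h2 | h2
  · exact starA H hS quad hgen D hl h1 h2 hne
  · rw [flip]
    subst h2
    exact starB H hS quad hgen D hl hy hyl h1
  · rw [flip]
    subst h2
    exact starB H hS quad hgen D.swap hl hy hyl h1
  · subst h1
    exact starB H hS quad hgen D hl hx hxl h2
  · exact absurd (h1.trans h2.symm) hne
  · exfalso
    rcases D.alt with ⟨h3, _⟩ | ⟨_, _, _, _, h5⟩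
    · apply hxl
      rw [h1, h3]
      exact Commute.one_left l
    · apply h5
      rw [← h1, ← h2]
      exact hxy
  · subst h1
    exact starB H hS quad hgen D.swap hl hx hxl h2
  · exfalso
    rcases D.alt with ⟨_, h3⟩ | ⟨_, _, _, _, h5⟩
    · apply hxl
      rw [h1, h3]
      exact Commute.one_left l
    · apply h5
      rw [← h1, ← h2]
      exact hxy.symm
  · exact absurd (h1.trans h2.symm) hne

end graph

end Pool.Agent.H381.P4
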