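import Pool.Agent.H381.P4.K

/-!
# Noncommuting graphs without four-cycles and with disjoint triangles: the theorem
-/

set_option autoImplicit false

namespace Pool.Agent.H381.P4

open Pool.Agent.H678.Inv
open Pool.Agent.W5h59.Bu (LFn LF2 rad rad_lf rad_quot le_rad lf_of_comm)

universe u

variable {G : Type u} [Group G]

section graph

variable (H : E2 G) {S : Set G} (hS : ∀ s ∈ S, s * s = 1)
  (quad : ∀ w ∈ S, ∀ x ∈ S, ∀ y ∈ S, ∀ z ∈ S, w ≠ y → x ≠ z →
    Commute w x ∨ Commute x y ∨ Commute y z ∨ Commute z w)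
  (tri : ∀ l ∈ S, ∀ a ∈ S, ∀ c ∈ S, ∀ a' ∈ S, ∀ c' ∈ S, ¬ Commute a l → ¬ Commute c l →
    ¬ Commute a c → ¬ Commute a' l → ¬ Commute c' l → ¬ Commute a' c' → a' = a ∨ a' = c)
  (hgen : Subgroup.closure S = ⊤)

include H hS quad tri hgen

theorem key_a {x a c y : G} {B : Set G} (D : Dat S x a c B) (hx : x ∈ S) (hy : y ∈ S)
    (hyx : Commute y x) (hne : y ≠ x) (hya : ¬ Commute y a) (hyc : Commute y c)
    (hyB : ∀ b ∈ B, Commute y b) :
    ∀ h ∈ Subgroup.closure (B ∪ {a, c}), CM y (cj x h) := by
  have ix := hS x hx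
  have iy := hS y hy
  have ia := D.ia
  have ic := D.ic
  have hB := Dsq hS D
  obtain ⟨haS, hcS, hax, hcx, hac⟩ : a ∈ S ∧ c ∈ S ∧ ¬ Commute a x ∧ ¬ Commute c x ∧
      ¬ Commute a c := by
    rcases D.alt with ⟨h, _⟩ | h
    · exact absurd (by rw [h]; exact Commute.one_right y) hya
    · exact h
  obtain ⟨B', D'⟩ : ∃ B', Dat S a x c B' := by
    obtain ⟨a', c', B', D'⟩ := exists_dat hS tri haS
    refine ⟨B', ?_⟩
    have hxa : ¬ Commute x a := fun h => hax h.symm
    have hca : ¬ Commute c a := fun h => hac h.symm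
    have hxc : ¬ Commute x c := fun h => hcx h.symm
    rcases D'.cov x hx hxa with h1 | h1 | h1 <;> rcases D'.cov c hcS hca with h2 | h2 | h2
    · exact absurd (D'.hBB x h1 c h2) hxc
    · exact absurd (h2 ▸ D'.hBa x h1) hxc
    · exact absurd (h2 ▸ D'.hBc x h1) hxc
    · exact absurd (h1 ▸ (D'.hBa c h2)) hcx
    · exact absurd (by rw [h1, h2]) hxc
    · rw [h1, h2]; exact D'
    · exact absurd (h1 ▸ (D'.hBc c h2)) hcx
    · rw [h1, h2]; exact D'.swap
    · exact absurd (by rw [h1, h2]) hxc
  have hyB' : y ∈ B' := by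
    rcases D'.cov y hy hya with h | h | h
    · exact h
    · exact absurd h hne
    · exact absurd (h ▸ hyx) hcx
  have hxa : ¬ Commute x a := fun h => hax h.symm
  have st : k (k a y) x ∈ rad G := star' H hS quad hgen D' haS hy hx hya hxa hne hyx
  have st2 : k (k a x) y ∈ rad G := star' H hS quad hgen D' haS hx hy hxa hya hne.symm hyx.symm
  have iya : k y a * k y a = 1 := H _ _ iy ia
  have ixc : k x c * k x c = 1 := H _ _ ix ic
  have c1 : CM (k y a) x := by
    apply CM.of_k iya ix
    rw [sw H iy ia]; exact st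
  have Fa : CM y (cj x a) := by
    apply CM.of_k iy (cj_sq ix a)
    rw [(B1 H iy ix ia hyx).2.2.2.2, sw H iy ia]
    exact st
  have c2 : CM (k y a) (k x c) := by
    by_cases he : k x c = y
    · rw [he]
      exact CM.of (kl iy ia iya)
    · apply CM.of_k iya ixc
      have h1 := starC H hS quad hgen D' haS hyB' he
      have hyρ : Commute (k x c) y := (co_k hyx hyc).symm
      have h2 : k (k (k x c) a) y = k (k y a) (k x c) := P1 H ixc iy ia hyρ
      rw [← h2, sw H ixc ia]
      exact h1
  have Fca : CM y (cj x (c * a)) := by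
    have ixc' := cj_sq ix c
    have h1 : Commute y (cj x c) := by
      have := comm_cj hyx c
      rwa [cj_of_comm hyc] at this
    have h2 : CM (k y a) (cj x c) := by
      rw [cj_k_mul H ix ic]
      exact c1.mul_right c2
    rw [← cj_cj]
    apply CM.of_k iy (cj_sq ixc' a)
    rw [(B1 H iy ixc' ia h1).2.2.2.2]
    exact h2.k_mem iya ixc'
  have Faca : CM y (cj x (a * c * a)) := by
    have iL : k a x * k a x = 1 := H _ _ ia ix
    have hyL : k y (k a x) ∈ rad G := by rw [sw H iy iL]; exact st2
    have iν : k (k a x) c * k (k a x) c = 1 := H _ _ iL ic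
    have d1 : CM y (k (k a x) c) := by
      have h1 : k (k y (k a x)) c = k (k c (k a x)) y := P1 H iy ic iL hyc
      have h2 : k (k y (k a x)) c ∈ rad G :=
        (CM.rad_left hyL).k_mem (H _ _ iy iL) ic
      rw [h1, sw H ic iL] at h2
      exact (CM.of_k iν iy h2).symm
    have gx : x ∈ Subgroup.closure (B' ∪ {x, c}) := Subgroup.subset_closure (Or.inr (Or.inl rfl))
    have gc : c ∈ Subgroup.closure (B' ∪ {x, c}) := Subgroup.subset_closure (Or.inr (Or.inr rfl))
    have gy : y ∈ Subgroup.closure (B' ∪ {x, c}) := Subgroup.subset_closure (Or.inl hyB')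
    have eL : k a x = cj a 1 * cj a x := by rw [cj_one]; exact k_eq ix
    have eν : k (k a x) c = cj a 1 * cj a x * (cj a c * cj a (x * c)) := by
      rw [k_eq ic, eL, cj_mul, cj_cj, cj_cj, one_mul]
    have d2 : ∀ g ∈ Subgroup.closure (B' ∪ {x, c}), CM (cj a g) (k (k a x) c) := by
      intro g hg
      rw [eν]
      have dd' := fun h hh => dd2 H hS quad hgen D' haS hg (h := h) hh
      exact ((dd' _ (one_mem _)).mul_right (dd' _ gx)).mul_right
        ((dd' _ gc).mul_right (dd' _ (mul_mem gx gc)))
    have d3 : CM (k (k a x) c) (k a y) := by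
      have : k a y = cj a 1 * cj a y := by rw [cj_one]; exact k_eq iy
      rw [this]
      exact (d2 _ (one_mem _)).symm.mul_right (d2 _ gy).symm
    have d4 : CM (cj y a) (k (k a x) c) := by
      rw [cj_k_mul H iy ia, sw H iy ia]
      exact (d1.symm.mul_right d3).symm
    have d5 := d4.conj a
    rw [cj_cj, ia, cj_one] at d5
    have La : Commute (k a x) a := kl ia ix iL
    have eL2 : k a x = x * cj x a := by rw [sw H ia ix]; exact k_eq ia
    have e6 : cj (k (k a x) c) a = k a x * (cj x (c * a) * cj x (a * c * a)) := by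
      have h1 : cj (k a x) (c * a) = cj x (c * a) * cj x (a * c * a) := by
        rw [eL2, cj_mul, cj_cj, mul_assoc a c a]
      rw [k_eq ic, cj_mul, cj_of_comm La, cj_cj, h1]
    have d7 : CM y (k a x) := by
      rw [eL2]
      exact (CM.of hyx).mul_right Fa
    have e8 : cj x (a * c * a) = (k a x * cj x (c * a))⁻¹ * cj (k (k a x) c) a := by
      rw [e6]; group
    rw [e8]
    exact ((d7.mul_right Fca).inv_right).mul_right d5
  have cj1 : ∀ w : G, CM y (cj x w) → CM y (cj x (w * c)) := by
    intro w hw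
    have := hw.conj c
    rwa [cj_of_comm hyc, cj_cj] at this
  have w1 : CM y (cj x 1) := by rw [cj_one]; exact CM.of hyx
  intro h hh
  obtain ⟨β, hβ, hw⟩ := class8 H hB ia ic D.hBa D.hBc hh
  have hzβ : Commute y β := (clo_comm (fun b hb => (hyB b hb).symm) β hβ).symm
  have fin : ∀ w : G, CM y (cj x w) → CM y (cj x (w * β)) := by
    intro w hw
    have := hw.conj β
    rwa [cj_of_comm hzβ, cj_cj] at this
  rcases hw with rfl | rfl | rfl | rfl | rfl | rfl | rfl | rfl
  · have := fin 1 w1
    rwa [one_mul] at this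
  · exact fin _ Fa
  · have := cj1 _ w1
    rw [one_mul] at this
    exact fin _ this
  · exact fin _ (cj1 _ Fa)
  · exact fin _ Fca
  · exact fin _ Faca
  · exact fin _ (cj1 _ Fca)
  · have := cj1 _ Faca
    have e : a * c * a * c = a * c * (a * c) := by simp only [mul_assoc]
    rw [e] at this
    exact fin _ this

theorem vertex_comm' {x a c y : G} {B : Set G} (D : Dat S x a c B) (hx : x ∈ S) (hy : y ∈ S)
    (hyx : Commute y x) : ∀ h ∈ Subgroup.closure (B ∪ {a, c}), CM y (cj x h) := by
  have ix := hS x hx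
  have iy := hS y hy
  intro h hh
  by_cases hne : y = x
  · rw [hne]
    exact dd H hS quad hgen D hx hh
  have hne' : x ≠ y := fun h => hne h.symm
  by_cases hall : ∀ b ∈ B, Commute y b
  · by_cases ya : Commute y a
    · by_cases yc : Commute y c
      · have hyh : Commute h y := by
          refine clo_comm ?_ h hh
          rintro b (hb | hb | hb)
          · exact (hall b hb).symm
          · rw [hb]; exact ya.symm
          · rw [Set.mem_singleton_iff] at hb
            rw [hb]; exact yc.symm
        have := comm_cj hyx h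
        rw [cj_of_comm hyh.symm] at this
        exact CM.of this
      · rw [Set.pair_comm] at hh
        exact key_a H hS quad tri hgen D.swap hx hy hyx hne yc ya hall h hh
    · have yc : Commute y c := by
        rcases Dac quad D hx hy hne' with h | h
        · exact absurd h ya
        · exact h
      exact key_a H hS quad tri hgen D hx hy hyx hne ya yc hall h hh
  · push Not at hall
    obtain ⟨m, hm, hym⟩ := hall
    obtain ⟨sa, sc, sb⟩ := Dm quad D hx hy hne' hm hym
    have hmS := (D.hB m hm).1
    have im := hS m hmS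
    obtain ⟨a', c', B', D'⟩ := exists_dat hS tri hmS
    have base : CM y (cj x m) := by
      apply CM.of_k iy (cj_sq ix m)
      rw [(B1 H iy ix im hyx).2.2.2.2, sw H iy im]
      exact star' H hS quad hgen D' hmS hy hx hym (fun h => (D.hB m hm).2 h.symm) hne hyx
    have h1 := ind2 (N := B ∪ {a, c}) (m := m) (x := x) (fun t => CM y t) (sq3 hS D) im
      (co3 D hm) (by
        intro t b hb hbm ht
        have hyb : Commute y b := by
          rcases hb with hb | hb | hb
          · exact sb b hb hbm
          · rw [hb]; exact sa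
          · rw [Set.mem_singleton_iff] at hb
            rw [hb]; exact sc
        have := ht.conj b
        rwa [cj_of_comm hyb] at this) (CM.of hyx) base
    exact (h1 h hh).1

theorem vertex_rad' {x : G} (hx : x ∈ S) : x ∈ rad G := by
  have ix := hS x hx
  obtain ⟨a, c, B, D⟩ := exists_dat hS tri hx
  have hself : ∀ t ∈ {t | ∃ g ∈ Subgroup.closure (B ∪ {a, c}), t = cj x g}, CM x t := by
    rintro _ ⟨g, hg, rfl⟩
    exact vertex_comm' H hS quad tri hgen D hx hx (Commute.refl x) g hg
  refine mainL (y := x) (T := {t | ∃ g ∈ Subgroup.closure (B ∪ {a, c}), t = cj x g}) ix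
    ⟨1, one_mem _, (cj_one _).symm⟩ hgen hS ?_ hself (Subgroup.subset_normalClosure rfl)
  intro s hs
  by_cases hsx : Commute s x
  · right
    rintro _ ⟨g, hg, rfl⟩
    exact vertex_comm' H hS quad tri hgen D hx hs hsx g hg
  · left
    rintro _ ⟨g, hg, rfl⟩
    refine ⟨g * s, mul_mem hg (Subgroup.subset_closure ?_), cj_cj _ _ _⟩
    rcases D.cov s hs hsx with h | h | h
    · exact Or.inl h
    · exact Or.inr (Or.inl h)
    · exact Or.inr (Or.inr h)

/-- **Theorem.** -/
theorem disj : LF2 G :=
  lf2_of_rad_top hgen (fun _ hs => vertex_rad' H hS quad tri hgen hs)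

end graph

end Pool.Agent.H381.P4
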